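import Mathlib
import Pool.Graph.R_pool_sql_team_seeded_63374d34.N293.BT.Nrm3

set_option autoImplicit false
open scoped InnerProductSpace ComplexConjugate ENNReal Matrix
open Filter Topology MeasureTheory AddCircle
open Pool.Agent.Helper917.Hardy
open Pool.Agent.H612R3.BpDefs
open Pool.Agent.H612R3.Bp5 (tau tau_apply tau_sum tau_meas tau_bdd isLinfty_conj tau_single)
open Pool.Agent.H612R3.Bp (mulOp_mulC mulC1_mem toep coe_toep adj_toep shft coe_shft monoH coe_shft_pow)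
open Pool.Agent.N293.BT

namespace Pool.Agent.H31.TC

section abs

variable {H : Type} [NormedAddCommGroup H] [InnerProductSpace ℂ H] [CompleteSpace H]

open ContinuousLinearMap (adjoint adjoint_inner_left adjoint_inner_right)

/-- hyponormality of a subnormal operator, and invariance of the kernel of the self-commutator -/
lemma sub_abs (T : H →L[ℂ] H) (hT : IsSubnormalOp T) :
    (∀ x, ‖adjoint T x‖ ≤ ‖T x‖) ∧
    ∀ x, ‖adjoint T x‖ = ‖T x‖ →
      adjoint T (T x) = T (adjoint T x) ∧ ‖adjoint T (T x)‖ = ‖T (T x)‖ := by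
  obtain ⟨K, _, _, _, N, V, hN, hV⟩ := hT
  have hN' : ∀ y, adjoint N (N y) = N (adjoint N y) :=
    fun y => congrArg (fun A : K →L[ℂ] K => A y) hN
  have hNn : ∀ y, ‖adjoint N y‖ = ‖N y‖ := by
    intro y
    have h1 : ⟪adjoint N y, adjoint N y⟫_ℂ = ⟪N y, N y⟫_ℂ := by
      rw [adjoint_inner_left, ← hN', adjoint_inner_right]
    rw [inner_self_eq_norm_sq_to_K, inner_self_eq_norm_sq_to_K] at h1
    have h2 : ‖adjoint N y‖ ^ 2 = ‖N y‖ ^ 2 := by exact_mod_cast h1
    exact (pow_left_inj₀ (norm_nonneg _) (norm_nonneg _) two_ne_zero).1 h2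
  -- `⟪V y, N* V x⟫ = ⟪y, T* x⟫`
  have h0 : ∀ x y, ⟪V y, adjoint N (V x)⟫_ℂ = ⟪y, adjoint T x⟫_ℂ := by
    intro x y
    rw [adjoint_inner_right, hV, V.inner_map_map, adjoint_inner_right]
  have key : ∀ x, ‖adjoint N (V x) - V (adjoint T x)‖ ^ 2 = ‖T x‖ ^ 2 - ‖adjoint T x‖ ^ 2 := by
    intro x
    have h1 := norm_sub_sq (𝕜 := ℂ) (adjoint N (V x)) (V (adjoint T x))
    have h2 : RCLike.re ⟪adjoint N (V x), V (adjoint T x)⟫_ℂ = ‖adjoint T x‖ ^ 2 := by
      rw [← inner_conj_symm, RCLike.conj_re, h0, inner_self_eq_norm_sq]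
    rw [h2, hNn, hV, V.norm_map, V.norm_map] at h1
    linarith
  have hle : ∀ x, ‖adjoint T x‖ ≤ ‖T x‖ := by
    intro x
    have h1 := key x
    have h2 : 0 ≤ ‖adjoint N (V x) - V (adjoint T x)‖ ^ 2 := by positivity
    exact (pow_le_pow_iff_left₀ (norm_nonneg _) (norm_nonneg _) two_ne_zero).1 (by linarith)
  refine ⟨hle, fun x hx => ?_⟩
  have h1 : adjoint N (V x) = V (adjoint T x) := by
    have h2 := key x
    rw [hx, sub_self] at h2
    have h3 : ‖adjoint N (V x) - V (adjoint T x)‖ = 0 := by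
      exact pow_eq_zero_iff two_ne_zero |>.1 h2
    exact sub_eq_zero.1 (norm_eq_zero.1 h3)
  have h2 : adjoint N (V (T x)) = V (T (adjoint T x)) := by
    rw [← hV, hN', h1, hV]
  have h3 : adjoint T (T x) = T (adjoint T x) := by
    apply ext_inner_left ℂ
    intro y
    rw [← h0, h2, V.inner_map_map]
  refine ⟨h3, ?_⟩
  have h4 := key (T x)
  rw [h2, h3, sub_self, norm_zero] at h4
  rw [h3]
  have h5 : ‖T (adjoint T x)‖ ^ 2 = ‖T (T x)‖ ^ 2 := by
    rw [← sub_eq_zero, ← neg_sub, neg_eq_zero, ← h4]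
    norm_num
  exact (pow_left_inj₀ (norm_nonneg _) (norm_nonneg _) two_ne_zero).1 h5

end abs

section lim

variable {V : Type} [NormedAddCommGroup V] [InnerProductSpace ℂ V] [FiniteDimensional ℂ V]

lemma norm_mulC_fourier (k : ℤ) (f : L2 V) : ‖mulC (fourier k) f‖ = ‖f‖ := by
  have h1 : ⟪mulC (fourier k) f, mulC (fourier k) f⟫_ℂ = ⟪f, f⟫_ℂ := by
    rw [inner_mulC_left, mulC_mulC, star_fourier, fourier_mul, neg_add_cancel]
    congr 1
    apply ext_fourierCoeff
    intro m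
    rw [fourierCoeff_mulC_fourier, sub_zero]
  rw [inner_self_eq_norm_sq_to_K, inner_self_eq_norm_sq_to_K] at h1
  have h2 : ‖mulC (fourier k) f‖ ^ 2 = ‖f‖ ^ 2 := by exact_mod_cast h1
  exact (pow_left_inj₀ (norm_nonneg _) (norm_nonneg _) two_ne_zero).1 h2

lemma mulC_fourier_mem' {f : L2 V} (N : ℕ) (hf : ∀ m : ℤ, m + N < 0 → fourierCoeff f m = 0) :
    mulC (fourier (N : ℤ)) f ∈ H2 V := by
  intro m hm
  rw [fourierCoeff_mulC_fourier]
  exact hf _ (by omega)

/-- norms of the Riesz projections of the shifts of `f` exhaust the norm of `f` -/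
lemma norm_le_of_riesz (f : L2 V) (b : ℝ) (hb : 0 ≤ b)
    (h : ∀ N : ℕ, ‖riesz (mulC (fourier (N : ℤ)) f)‖ ≤ b) : ‖f‖ ≤ b := by
  have h1 := hasSum_sq_norm_fourierCoeff f
  have h2 : ‖f‖ ^ 2 ≤ b ^ 2 := by
    refine hasSum_le_of_sum_le h1 (fun s => ?_)
    obtain ⟨N, hN⟩ : ∃ N : ℕ, ∀ m ∈ s, 0 ≤ m + (N : ℤ) := by
      refine ⟨∑ m ∈ s, m.natAbs, fun m hm => ?_⟩
      have : m.natAbs ≤ ∑ m ∈ s, m.natAbs := Finset.single_le_sum (fun _ _ => Nat.zero_le _) hm
      omega
    have h3 := hasSum_sq_norm_fourierCoeff (riesz (mulC (fourier (N : ℤ)) f))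
    have h4 : ∑ m ∈ s, ‖fourierCoeff f m‖ ^ 2 = ∑ m ∈ s.map (addRightEmbedding (N : ℤ)),
        ‖fourierCoeff (riesz (mulC (fourier (N : ℤ)) f)) m‖ ^ 2 := by
      rw [Finset.sum_map]
      refine Finset.sum_congr rfl (fun m hm => ?_)
      rw [addRightEmbedding_apply, fourierCoeff_riesz, if_neg (by have := hN m hm; omega),
        fourierCoeff_mulC_fourier, add_sub_cancel_right]
    rw [h4]
    refine (sum_le_hasSum _ (fun _ _ => by positivity) h3).trans ?_
    exact pow_le_pow_left₀ (norm_nonneg _) (h N) 2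
  exact (pow_le_pow_iff_left₀ (norm_nonneg _) hb two_ne_zero).1 h2

lemma hasSum_mono (f : L2 V) : HasSum (fun m : ℤ => (mono m (fourierCoeff f m) : L2 V)) f := by
  have h1 := lp.hasSum_single (E := fun _ : ℤ => V) (p := 2) (by norm_num) (four f)
  have h2 := (four (E := V)).symm.toContinuousLinearEquiv.toContinuousLinearMap.hasSum h1
  have h3 : (four (E := V)).symm.toContinuousLinearEquiv.toContinuousLinearMap (four f) = f :=
    (four (E := V)).symm_apply_apply f
  rw [h3] at h2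
  convert h2 using 2 with m
  rw [four_apply]
  exact ((isHilbertSum_mono (E := V)).linearIsometryEquiv_symm_apply_single _).symm

end lim

end Pool.Agent.H31.TC
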