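import Mathlib
import Pool.Agent.H31.TC1

set_option autoImplicit false
open scoped InnerProductSpace ComplexConjugate ENNReal Matrix
open Filter Topology MeasureTheory AddCircle
open Pool.Agent.Helper917.Hardy
open Pool.Agent.H612R3.BpDefs
open Pool.Agent.H612R3.Bp5 (tau tau_apply tau_sum tau_meas tau_bdd isLinfty_conj tau_single)
open Pool.Agent.H612R3.Bp (mulOp_mulC mulC1_mem toep coe_toep adj_toep shft coe_shft monoH coe_shft_pow)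
open Pool.Agent.N293.BT

namespace Pool.Agent.H31.TC

/-- multiplication by a bounded matrix function on `L²` -/
noncomputable def MM (Θ : Circ → Matrix (Fin 2) (Fin 2) ℂ) (h : IsLinfty Θ) : L2 E2 →L[ℂ] L2 E2 :=
  mulOp (fun t => tau 2 (Θ t)) (tau_meas h) (tau_bdd h).choose (tau_bdd h).choose_spec

variable {Θ : Circ → Matrix (Fin 2) (Fin 2) ℂ}

lemma coeFn_MM (h : IsLinfty Θ) (f : L2 E2) : MM Θ h f =ᵐ[mu] fun t => tau 2 (Θ t) (f t) :=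
  coeFn_mulOp _ _ _ _ f

/-- multiplication by the adjoint matrix function -/
noncomputable abbrev MM' (Θ : Circ → Matrix (Fin 2) (Fin 2) ℂ) (h : IsLinfty Θ) : L2 E2 →L[ℂ] L2 E2 :=
  MM (fun t => (Θ t)ᴴ) (isLinfty_conj h)

lemma tau_adj (A : Matrix (Fin 2) (Fin 2) ℂ) : tau 2 Aᴴ = ContinuousLinearMap.adjoint (tau 2 A) :=
  map_star (tau 2) A

lemma MM_mulC (h : IsLinfty Θ) (m : C(Circ, ℂ)) (f : L2 E2) : MM Θ h (mulC m f) = mulC m (MM Θ h f) :=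
  mulOp_mulC m f

lemma inner_MM (h : IsLinfty Θ) (f g : L2 E2) : ⟪MM Θ h f, g⟫_ℂ = ⟪f, MM' Θ h g⟫_ℂ := by
  rw [L2.inner_def, L2.inner_def]
  apply integral_congr_ae
  filter_upwards [coeFn_MM h f, coeFn_MM (isLinfty_conj h) g] with t h1 h2
  rw [h1, h2, tau_adj, ContinuousLinearMap.adjoint_inner_right]

/-- positivity of a self-commutator and its kernel -/
lemma pos_ker {L : Type} [NormedAddCommGroup L] [InnerProductSpace ℂ L] (A B : L →L[ℂ] L)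
    (hAB : ∀ f g, ⟪A f, g⟫_ℂ = ⟪f, B g⟫_ℂ) (h : ∀ f, ‖B f‖ ≤ ‖A f‖) (u : L) (hu : ‖B u‖ = ‖A u‖) :
    B (A u) = A (B u) := by
  have hBA : ∀ f g, ⟪B f, g⟫_ℂ = ⟪f, A g⟫_ℂ := by
    intro f g
    rw [← inner_conj_symm, ← hAB, inner_conj_symm]
  let D : L →L[ℂ] L := B.comp A - A.comp B
  have hD : ∀ f g, ⟪D f, g⟫_ℂ = ⟪A f, A g⟫_ℂ - ⟪B f, B g⟫_ℂ := by
    intro f g
    show ⟪B (A f) - A (B f), g⟫_ℂ = _
    rw [inner_sub_left, hBA, hAB (B f) g]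
  have hDn : ∀ f, RCLike.re ⟪D f, f⟫_ℂ = ‖A f‖ ^ 2 - ‖B f‖ ^ 2 := by
    intro f
    rw [hD, map_sub, inner_self_eq_norm_sq, inner_self_eq_norm_sq]
  have hDp : ∀ f, 0 ≤ RCLike.re ⟪D f, f⟫_ℂ := by
    intro f
    rw [hDn]
    have := pow_le_pow_left₀ (norm_nonneg _) (h f) 2
    linarith
  have hDs : ∀ f g, ⟪D f, g⟫_ℂ = conj ⟪D g, f⟫_ℂ := by
    intro f g
    rw [hD, hD, map_sub, inner_conj_symm, inner_conj_symm]
  have hDu : D u = 0 := by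
    by_contra hne
    have hpos : 0 < ‖D u‖ ^ 2 := by
      have := norm_pos_iff.2 hne
      positivity
    have e1 : ∀ t : ℝ, 0 ≤ 2 * t * ‖D u‖ ^ 2 + t ^ 2 * RCLike.re ⟪D (D u), D u⟫_ℂ := by
      intro t
      have h1 := hDp (u + (t : ℂ) • D u)
      have h2 : ⟪D (u + (t : ℂ) • D u), u + (t : ℂ) • D u⟫_ℂ =
          ⟪D u, u⟫_ℂ + (t : ℂ) * ⟪D u, D u⟫_ℂ + (t : ℂ) * ⟪D (D u), u⟫_ℂ + (t : ℂ) ^ 2 * ⟪D (D u), D u⟫_ℂ := by
        rw [map_add, map_smul, inner_add_left, inner_add_right, inner_add_right, inner_smul_left,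
          inner_smul_right, inner_smul_left, inner_smul_right, Complex.conj_ofReal]
        ring
      have h3 : ⟪D (D u), u⟫_ℂ = ⟪D u, D u⟫_ℂ := by
        rw [hDs, inner_conj_symm]
      have h4 : RCLike.re ⟪D u, u⟫_ℂ = 0 := by rw [hDn, hu, sub_self]
      rw [h2, h3] at h1
      have h5 : ((‖D u‖ ^ 2 : ℝ) : ℂ) = ⟪D u, D u⟫_ℂ := by
        rw [inner_self_eq_norm_sq_to_K]; push_cast; rfl
      rw [← h5] at h1
      have h6 : RCLike.re (⟪D u, u⟫_ℂ + (t : ℂ) * ((‖D u‖ ^ 2 : ℝ) : ℂ) + (t : ℂ) * ((‖D u‖ ^ 2 : ℝ) : ℂ)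
          + (t : ℂ) ^ 2 * ⟪D (D u), D u⟫_ℂ) = RCLike.re ⟪D u, u⟫_ℂ + 2 * t * ‖D u‖ ^ 2 +
          t ^ 2 * RCLike.re ⟪D (D u), D u⟫_ℂ := by
        have : ((t : ℂ)) ^ 2 = ((t ^ 2 : ℝ) : ℂ) := by push_cast; rfl
        rw [this, ← Complex.ofReal_mul]
        simp only [RCLike.re_to_complex, Complex.add_re, Complex.ofReal_re, Complex.re_ofReal_mul]
        ring
      rw [h6, h4, zero_add] at h1
      exact h1
    obtain ⟨c, hc⟩ : ∃ c, c = RCLike.re ⟪D (D u), D u⟫_ℂ := ⟨_, rfl⟩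
    have hc0 : 0 ≤ c := hc ▸ hDp (D u)
    have h7 := e1 (-‖D u‖ ^ 2 / (c + 1))
    rw [← hc] at h7
    generalize ‖D u‖ ^ 2 = a at *
    have h8 : 2 * (-a / (c + 1)) * a + (-a / (c + 1)) ^ 2 * c = -(a ^ 2 * (c + 2)) / (c + 1) ^ 2 := by
      field_simp
      ring
    rw [h8] at h7
    have h9 : 0 < a ^ 2 * (c + 2) / (c + 1) ^ 2 := by positivity
    rw [neg_div] at h7
    linarith
  exact sub_eq_zero.1 hDu

/-- the block Toeplitz operator -/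
noncomputable def TT (Θ : Circ → Matrix (Fin 2) (Fin 2) ℂ) (h : IsLinfty Θ) : H2 E2 →L[ℂ] H2 E2 :=
  toep (fun t => tau 2 (Θ t)) (tau_meas h) (tau_bdd h).choose (tau_bdd h).choose_spec

lemma coe_TT (h : IsLinfty Θ) (f : H2 E2) : ((TT Θ h f : H2 E2) : L2 E2) = riesz (MM Θ h (f : L2 E2)) := rfl

lemma adj_TT (h : IsLinfty Θ) : ContinuousLinearMap.adjoint (TT Θ h) = TT (fun t => (Θ t)ᴴ) (isLinfty_conj h) :=
  adj_toep (ae_of_all _ fun t => tau_adj (Θ t))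

lemma TT_eq (h : IsLinfty Θ) (T : HardySp 2 →L[ℂ] HardySp 2) (hT : IsToeplitz Θ T) : T = TT Θ h := by
  apply ContinuousLinearMap.ext
  intro f
  obtain ⟨g, hg, hTf⟩ := hT f
  have h1 : g = MM Θ h (toL2 f) := by
    apply Lp.ext
    filter_upwards [hg, coeFn_MM h (toL2 f)] with t h2 h3
    rw [h2, h3]
    rfl
  rw [h1] at hTf
  exact Subtype.ext hTf

section sub

variable (hΘ : IsLinfty Θ) (hS : IsSubnormalOp (TT Θ hΘ))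

include hS in
lemma hyp (f : L2 E2) (hf : f ∈ H2 E2) : ‖riesz (MM' Θ hΘ f)‖ ≤ ‖riesz (MM Θ hΘ f)‖ := by
  have h := (sub_abs _ hS).1 (⟨f, hf⟩ : H2 E2)
  rw [adj_TT] at h
  exact h

include hS in
lemma ker_inv (f : L2 E2) (hf : f ∈ H2 E2) (he : ‖riesz (MM' Θ hΘ f)‖ = ‖riesz (MM Θ hΘ f)‖) :
    ‖riesz (MM' Θ hΘ (riesz (MM Θ hΘ f)))‖ = ‖riesz (MM Θ hΘ (riesz (MM Θ hΘ f)))‖ ∧
    ∀ g ∈ H2 E2, ⟪riesz (MM Θ hΘ f), riesz (MM Θ hΘ g)⟫_ℂ =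
      ⟪riesz (MM' Θ hΘ f), riesz (MM' Θ hΘ g)⟫_ℂ := by
  have h := (sub_abs _ hS).2 (⟨f, hf⟩ : H2 E2) (by
    rw [adj_TT]
    exact he)
  constructor
  · have h2 := h.2
    rw [adj_TT] at h2
    exact h2
  · intro g hg
    have h3 : ⟪TT Θ hΘ (⟨f, hf⟩ : H2 E2), TT Θ hΘ (⟨g, hg⟩ : H2 E2)⟫_ℂ =
      ⟪ContinuousLinearMap.adjoint (TT Θ hΘ) (⟨f, hf⟩ : H2 E2), ContinuousLinearMap.adjoint (TT Θ hΘ) (⟨g, hg⟩ : H2 E2)⟫_ℂ := by
      rw [← ContinuousLinearMap.adjoint_inner_left, h.1, ← ContinuousLinearMap.adjoint_inner_right]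
    rw [adj_TT] at h3
    exact h3

include hS in
lemma hyp_L2 (f : L2 E2) : ‖MM' Θ hΘ f‖ ≤ ‖MM Θ hΘ f‖ := by
  -- on `H²`
  have h1 : ∀ f ∈ H2 E2, ‖MM' Θ hΘ f‖ ≤ ‖MM Θ hΘ f‖ := by
    intro f hf
    refine norm_le_of_riesz _ _ (norm_nonneg _) (fun N => ?_)
    rw [← MM_mulC]
    refine (hyp hΘ hS _ (mulC_fourier_mem hf N)).trans ?_
    refine (norm_riesz_le _).trans ?_
    rw [MM_mulC, norm_mulC_fourier]
  have h2 : ∀ (N : ℕ) (f : L2 E2), mulC (fourier (N : ℤ)) f ∈ H2 E2 → ‖MM' Θ hΘ f‖ ≤ ‖MM Θ hΘ f‖ := by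
    intro N f hf
    have := h1 _ hf
    rwa [MM_mulC, MM_mulC, norm_mulC_fourier, norm_mulC_fourier] at this
  have h3 := hasSum_mono f
  have h4 : Tendsto (fun s : Finset ℤ => ‖MM' Θ hΘ (∑ m ∈ s, (mono m (fourierCoeff f m) : L2 E2))‖) atTop
      (𝓝 ‖MM' Θ hΘ f‖) := ((MM' Θ hΘ).continuous.norm.tendsto f).comp h3
  have h5 : Tendsto (fun s : Finset ℤ => ‖MM Θ hΘ (∑ m ∈ s, (mono m (fourierCoeff f m) : L2 E2))‖) atTop
      (𝓝 ‖MM Θ hΘ f‖) := ((MM Θ hΘ).continuous.norm.tendsto f).comp h3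
  refine le_of_tendsto_of_tendsto' h4 h5 (fun s => ?_)
  obtain ⟨N, hN⟩ : ∃ N : ℕ, ∀ m ∈ s, 0 ≤ m + (N : ℤ) := by
    refine ⟨∑ m ∈ s, m.natAbs, fun m hm => ?_⟩
    have : m.natAbs ≤ ∑ m ∈ s, m.natAbs := Finset.single_le_sum (fun _ _ => Nat.zero_le _) hm
    omega
  refine h2 N _ (mulC_fourier_mem' N (fun m hm => ?_))
  rw [← coeffL_apply, map_sum]
  refine Finset.sum_eq_zero (fun k hk => ?_)
  rw [coeffL_apply, fourierCoeff_mono, if_neg]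
  rintro rfl
  have := hN m hk
  omega

/-- the constant function `e_i` -/
noncomputable def ce (i : Fin 2) : L2 E2 := mono 0 (EuclideanSpace.single i (1 : ℂ) : E2)

lemma coeFn_ce (i : Fin 2) : ce i =ᵐ[mu] fun _ => (EuclideanSpace.single i (1 : ℂ) : E2) := by
  filter_upwards [coeFn_mono 0 (EuclideanSpace.single i (1 : ℂ) : E2)] with t h
  rw [ce, h, fourier_zero, one_smul]

lemma trace_eq : ∑ i, ‖MM' Θ hΘ (ce i)‖ ^ 2 = ∑ i, ‖MM Θ hΘ (ce i)‖ ^ 2 := by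
  have key : ∀ (A : Circ → Matrix (Fin 2) (Fin 2) ℂ) (hA : IsLinfty A),
      ((∑ i, ‖MM A hA (ce i)‖ ^ 2 : ℝ) : ℂ) = ∫ t, ∑ i, ∑ l, (conj (A t l i) * A t l i) ∂mu := by
    intro A hA
    have h1 : ∀ i, ((‖MM A hA (ce i)‖ ^ 2 : ℝ) : ℂ) = ∫ t, ⟪MM A hA (ce i) t, MM A hA (ce i) t⟫_ℂ ∂mu := by
      intro i
      rw [← L2.inner_def, inner_self_eq_norm_sq_to_K]
      push_cast
      rfl
    rw [Complex.ofReal_sum, Finset.sum_congr rfl (fun i _ => h1 i), ← integral_finsetSum]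
    · apply integral_congr_ae
      have h2 : ∀ i, ∀ᵐ t ∂mu, ⟪MM A hA (ce i) t, MM A hA (ce i) t⟫_ℂ = ∑ l, (conj (A t l i) * A t l i) := by
        intro i
        filter_upwards [coeFn_MM hA (ce i), coeFn_ce i] with t h3 h4
        rw [h3, h4, PiLp.inner_apply]
        refine Finset.sum_congr rfl (fun l _ => ?_)
        rw [tau_single, RCLike.inner_apply, mul_comm]
      filter_upwards [h2 0, h2 1] with t h3 h4
      rw [Fin.sum_univ_two, Fin.sum_univ_two, h3, h4]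
    · intro i _
      exact L2.integrable_inner _ _
  have e : ((∑ i, ‖MM' Θ hΘ (ce i)‖ ^ 2 : ℝ) : ℂ) = ((∑ i, ‖MM Θ hΘ (ce i)‖ ^ 2 : ℝ) : ℂ) := by
    rw [key, key]
    congr 1
    funext t
    simp only [Fin.sum_univ_two, Matrix.conjTranspose_apply]
    simp only [← starRingEnd_apply, Complex.conj_conj]
    ring_nf
  exact_mod_cast e

include hΘ hS in
lemma normal_ae : ∀ᵐ t ∂mu, (Θ t)ᴴ * Θ t = Θ t * (Θ t)ᴴ := by
  have h1 := trace_eq hΘ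
  rw [Fin.sum_univ_two, Fin.sum_univ_two] at h1
  have h2 : ∀ i, ‖MM' Θ hΘ (ce i)‖ ^ 2 ≤ ‖MM Θ hΘ (ce i)‖ ^ 2 := fun i =>
    pow_le_pow_left₀ (norm_nonneg _) (hyp_L2 hΘ hS _) 2
  have h3 : ∀ i, ‖MM' Θ hΘ (ce i)‖ = ‖MM Θ hΘ (ce i)‖ := by
    intro i
    have h4 := h2 0
    have h5 := h2 1
    refine (pow_left_inj₀ (norm_nonneg _) (norm_nonneg _) two_ne_zero).1 ?_
    fin_cases i
    · show ‖MM' Θ hΘ (ce 0)‖ ^ 2 = ‖MM Θ hΘ (ce 0)‖ ^ 2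
      linarith
    · show ‖MM' Θ hΘ (ce 1)‖ ^ 2 = ‖MM Θ hΘ (ce 1)‖ ^ 2
      linarith
  have h4 : ∀ i, MM' Θ hΘ (MM Θ hΘ (ce i)) = MM Θ hΘ (MM' Θ hΘ (ce i)) := fun i =>
    pos_ker _ _ (inner_MM hΘ) (hyp_L2 hΘ hS) _ (h3 i)
  have h5 : ∀ i, ∀ᵐ t ∂mu, ∀ l, ((Θ t)ᴴ * Θ t) l i = (Θ t * (Θ t)ᴴ) l i := by
    intro i
    have h6 := h4 i
    filter_upwards [coeFn_MM (isLinfty_conj hΘ) (MM Θ hΘ (ce i)), coeFn_MM hΘ (MM' Θ hΘ (ce i)),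
      coeFn_MM hΘ (ce i), coeFn_MM (isLinfty_conj hΘ) (ce i), coeFn_ce i] with t a1 a2 a3 a4 a5 l
    have h7 : tau 2 (Θ t)ᴴ (tau 2 (Θ t) (EuclideanSpace.single i (1 : ℂ))) =
        tau 2 (Θ t) (tau 2 (Θ t)ᴴ (EuclideanSpace.single i (1 : ℂ))) := by
      rw [← a5, ← a3, ← a4, ← a1, ← a2]
      exact congrArg (fun u : L2 E2 => (u : Circ → E2) t) h6
    have h8 : tau 2 ((Θ t)ᴴ * Θ t) (EuclideanSpace.single i (1 : ℂ)) =
        tau 2 (Θ t * (Θ t)ᴴ) (EuclideanSpace.single i (1 : ℂ)) := by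
      rw [map_mul, map_mul]
      exact h7
    have h9 := congrArg (fun u : E2 => u l) h8
    rw [tau_single, tau_single] at h9
    exact h9
  filter_upwards [h5 0, h5 1] with t a0 a1
  ext l i
  fin_cases i
  · exact a0 l
  · exact a1 l

include hS in
lemma MM_comm (f : L2 E2) : MM' Θ hΘ (MM Θ hΘ f) = MM Θ hΘ (MM' Θ hΘ f) := by
  apply Lp.ext
  filter_upwards [coeFn_MM (isLinfty_conj hΘ) (MM Θ hΘ f), coeFn_MM hΘ (MM' Θ hΘ f),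
      coeFn_MM hΘ f, coeFn_MM (isLinfty_conj hΘ) f, normal_ae hΘ hS] with t a1 a2 a3 a4 a5
  rw [a1, a2, a3, a4]
  have h8 : tau 2 ((Θ t)ᴴ * Θ t) (f t) = tau 2 (Θ t * (Θ t)ᴴ) (f t) := by rw [a5]
  rw [map_mul, map_mul] at h8
  exact h8

include hS in
lemma MM_inner (f g : L2 E2) : ⟪MM Θ hΘ f, MM Θ hΘ g⟫_ℂ = ⟪MM' Θ hΘ f, MM' Θ hΘ g⟫_ℂ := by
  rw [inner_MM, MM_comm hΘ hS, ← inner_conj_symm, inner_MM, inner_conj_symm]

include hS in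
lemma MM_norm (f : L2 E2) : ‖MM Θ hΘ f‖ = ‖MM' Θ hΘ f‖ := by
  have h1 := MM_inner hΘ hS f f
  rw [inner_self_eq_norm_sq_to_K, inner_self_eq_norm_sq_to_K] at h1
  have h2 : ‖MM Θ hΘ f‖ ^ 2 = ‖MM' Θ hΘ f‖ ^ 2 := by exact_mod_cast h1
  exact (pow_left_inj₀ (norm_nonneg _) (norm_nonneg _) two_ne_zero).1 h2

/-- `f ∈ ker [T*, T]` -/
def KD (f : L2 E2) : Prop := f ∈ H2 E2 ∧ ‖riesz (MM' Θ hΘ f)‖ = ‖riesz (MM Θ hΘ f)‖

include hS in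
lemma ker_G (g : L2 E2) (hg : g ∈ H2 E2) (hg' : MM' Θ hΘ g ∈ H2 E2) :
    MM Θ hΘ g ∈ H2 E2 ∧ KD hΘ (MM Θ hΘ g) := by
  have h1 := hyp hΘ hS g hg
  rw [riesz_eq_self hg', ← MM_norm hΘ hS] at h1
  have h2 : ‖riesz (MM Θ hΘ g)‖ = ‖MM Θ hΘ g‖ := le_antisymm (norm_riesz_le _) h1
  have h3 := pyth (MM Θ hΘ g)
  rw [h2] at h3
  have h4 : ‖MM Θ hΘ g - riesz (MM Θ hΘ g)‖ ^ 2 = 0 := by linarith
  have h5 : MM Θ hΘ g - riesz (MM Θ hΘ g) = 0 := norm_eq_zero.1 (pow_eq_zero_iff two_ne_zero |>.1 h4)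
  have h6 : MM Θ hΘ g = riesz (MM Θ hΘ g) := sub_eq_zero.1 h5
  have h7 : MM Θ hΘ g ∈ H2 E2 := by
    rw [h6]
    exact riesz_mem _
  refine ⟨h7, h7, ?_⟩
  have h8 := (ker_inv hΘ hS g hg (by rw [riesz_eq_self hg', h2, MM_norm hΘ hS])).1
  rwa [← h6] at h8

include hS in
/-- the relation between the Fourier coefficients of negative index -/
lemma rel (f : L2 E2) (hf : ∀ k : ℕ, KD hΘ (mulC (fourier (k : ℤ)) f)) (g : L2 E2) (hg : g ∈ H2 E2)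
    (i j : ℕ) :
    ⟪fourierCoeff (MM Θ hΘ f) (-1 - i), fourierCoeff (MM Θ hΘ g) (-1 - j)⟫_ℂ =
      ⟪fourierCoeff (MM' Θ hΘ f) (-1 - i), fourierCoeff (MM' Θ hΘ g) (-1 - j)⟫_ℂ := by
  have h1 := (ker_inv hΘ hS _ (hf i).1 (hf i).2).2 _ (mulC_fourier_mem hg j)
  have h2 := (ker_inv hΘ hS _ (hf (i + 1)).1 (hf (i + 1)).2).2 _ (mulC_fourier_mem hg (j + 1))
  have e1 : ∀ (A : Circ → Matrix (Fin 2) (Fin 2) ℂ) (hA : IsLinfty A) (u : L2 E2) (k : ℕ),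
      MM A hA (mulC (fourier ((k + 1 : ℕ) : ℤ)) u) = mulC (fourier 1) (MM A hA (mulC (fourier (k : ℤ)) u)) := by
    intro A hA u k
    rw [← MM_mulC, mulC_mulC, fourier_mul]
    congr 3
    push_cast
    ring
  rw [e1, e1, e1, e1, inner_riesz_shift, inner_riesz_shift, h1] at h2
  have h3 := add_left_cancel h2
  rw [MM_mulC, MM_mulC, MM_mulC, MM_mulC] at h3
  simpa only [fourierCoeff_mulC_fourier] using h3

end sub

end Pool.Agent.H31.TC
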