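import Mathlib
import Pool.Agent.H31.TC2

set_option autoImplicit false
open scoped InnerProductSpace ComplexConjugate ENNReal Matrix
open Filter Topology MeasureTheory AddCircle
open Pool.Agent.Helper917.Hardy
open Pool.Agent.H612R3.BpDefs
open Pool.Agent.H612R3.Bp5 (tau tau_apply tau_sum tau_meas tau_bdd isLinfty_conj tau_single)
open Pool.Agent.H612R3.Bp (mulOp_mulC mulC1_mem toep coe_toep adj_toep shft coe_shft monoH coe_shft_pow)
open Pool.Agent.N293.BT

namespace Pool.Agent.H31.TC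

/-- essentially bounded measurable scalar functions -/
def Bdd (a : Circ → ℂ) : Prop := AEStronglyMeasurable a mu ∧ ∃ C : ℝ, ∀ᵐ t ∂mu, ‖a t‖ ≤ C

lemma Bdd.cj {a : Circ → ℂ} (h : Bdd a) : Bdd (fun t => conj (a t)) :=
  ⟨Complex.continuous_conj.comp_aestronglyMeasurable h.1, h.2.imp fun C hC => by
    filter_upwards [hC] with t ht
    rwa [RCLike.norm_conj]⟩

/-- multiplication by `a` -/
noncomputable def ms (a : Circ → ℂ) (h : Bdd a) : L2 ℂ →L[ℂ] L2 ℂ :=
  mulS a h.1 h.2.choose h.2.choose_spec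

section
variable {a b : Circ → ℂ} (h : Bdd a) (h' : Bdd b)

lemma coeFn_ms (f : L2 ℂ) : ms a h f =ᵐ[mu] fun t => a t * f t := coeFn_mulS _ _ _ _ f

lemma ms_comm (f : L2 ℂ) : ms a h (ms b h' f) = ms b h' (ms a h f) := by
  apply Lp.ext
  filter_upwards [coeFn_ms h (ms b h' f), coeFn_ms h' f, coeFn_ms h' (ms a h f), coeFn_ms h f]
    with t h1 h2 h3 h4
  rw [h1, h2, h3, h4]
  ring

lemma ms_mulC (m : C(Circ, ℂ)) (f : L2 ℂ) : ms a h (mulC m f) = mulC m (ms a h f) := by
  apply Lp.ext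
  filter_upwards [coeFn_ms h (mulC m f), coeFn_mulC m f, coeFn_mulC m (ms a h f), coeFn_ms h f]
    with t h1 h2 h3 h4
  rw [h1, h2, h3, h4, smul_eq_mul, smul_eq_mul]
  ring

/-- Fourier coefficients of the product with a trigonometric polynomial -/
lemma coeff_trig (n : ℕ) (ht : ∀ m : ℤ, (n : ℤ) < |m| → fourierCoeff a m = 0) (f : L2 ℂ) (m : ℤ) :
    fourierCoeff (ms a h f) m = ∑ k ∈ Finset.Icc (-(n : ℤ)) n, fourierCoeff a k * fourierCoeff f (m - k) := by
  obtain ⟨C, hC⟩ := h.2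
  have h1 := trig_of_coeff a h.1 C hC n ht
  have h2 : ms a h f = ∑ k ∈ Finset.Icc (-(n : ℤ)) n, fourierCoeff a k • mulC (fourier k) f := by
    apply Lp.ext
    have h3 : ∀ s : Finset ℤ, ((∑ k ∈ s, fourierCoeff a k • mulC (fourier k) f : L2 ℂ) : Circ → ℂ) =ᵐ[mu]
        fun t => (∑ k ∈ s, fourierCoeff a k * fourier k t) * f t := by
      intro s
      induction s using Finset.induction_on with
      | empty =>
        simp only [Finset.sum_empty, zero_mul]
        exact Lp.coeFn_zero _ _ _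
      | insert k s hk ih =>
        simp only [Finset.sum_insert hk]
        filter_upwards [ih, Lp.coeFn_add (fourierCoeff a k • mulC (fourier k) f)
          (∑ k ∈ s, fourierCoeff a k • mulC (fourier k) f), Lp.coeFn_smul (fourierCoeff a k) (mulC (fourier k) f),
          coeFn_mulC (fourier k) f] with t a1 a2 a3 a4
        rw [a2, Pi.add_apply, a3, Pi.smul_apply, a4, a1, smul_eq_mul, smul_eq_mul]
        ring
    filter_upwards [coeFn_ms h f, h1, h3 (Finset.Icc (-(n : ℤ)) n)] with t a1 a2 a3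
    rw [a1, a3, ← a2]
  rw [h2, ← coeffL_apply, map_sum]
  refine Finset.sum_congr rfl (fun k _ => ?_)
  rw [map_smul, coeffL_apply, fourierCoeff_mulC_fourier, smul_eq_mul]

end

section
variable {Φ : Circ → ℂ} (h : Bdd Φ) {n : ℕ} (hc : IsCoanalyticPoly n Φ)

include hc in
lemma co_trig : ∀ m : ℤ, (n : ℤ) < |m| → fourierCoeff Φ m = 0 := by
  intro m hm
  apply hc.1
  rcases lt_or_ge m 0 with h0 | h0
  · rw [abs_of_neg h0] at hm
    left; omega
  · rw [abs_of_nonneg h0] at hm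
    right; omega

include hc in
lemma co_coeff (f : L2 ℂ) (hf : f ∈ H2 ℂ) (m : ℤ) (hm : m < -(n : ℤ)) :
    fourierCoeff (ms Φ h f) m = 0 := by
  rw [coeff_trig h n (co_trig hc)]
  refine Finset.sum_eq_zero (fun k hk => ?_)
  rw [Finset.mem_Icc] at hk
  rw [hf _ (by omega), mul_zero]

include hc in
lemma co_coeff' (f : L2 ℂ) (hf : f ∈ H2 ℂ) :
    fourierCoeff (ms Φ h f) (-(n : ℤ)) = fourierCoeff Φ (-(n : ℤ)) * fourierCoeff f 0 := by
  rw [coeff_trig h n (co_trig hc), Finset.sum_eq_single_of_mem (-(n : ℤ)) (by simp)]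
  · rw [sub_self]
  · intro k hk hne
    rw [Finset.mem_Icc] at hk
    rw [hf _ (by omega), mul_zero]

include hc in
lemma co_cj (f : L2 ℂ) (hf : f ∈ H2 ℂ) : ms _ h.cj f ∈ H2 ℂ := by
  intro m hm
  rw [coeff_trig h.cj n]
  · refine Finset.sum_eq_zero (fun k hk => ?_)
    rw [fourierCoeff_conj]
    rcases lt_or_ge k 0 with h0 | h0
    · rw [hc.1 _ (Or.inr (by omega)), map_zero, zero_mul]
    · rw [hf _ (by omega), mul_zero]
  · intro k hk
    rw [fourierCoeff_conj, co_trig hc _ (by rwa [abs_neg]), map_zero]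

end

section star

lemma coeff_star (x : L2 ℂ) (m : ℤ) : fourierCoeff (star x : L2 ℂ) m = conj (fourierCoeff x (-m)) := by
  rw [← fourierCoeff_conj]
  refine congrFun (fourierCoeff_congr_ae ?_) m
  filter_upwards [Lp.coeFn_star x] with t ht
  rw [ht]
  rfl

lemma inner_star_H2 (u v : L2 ℂ) (hu : u ∈ H2 ℂ) (hv : v ∈ H2 ℂ) :
    ⟪(star u : L2 ℂ), v⟫_ℂ = fourierCoeff u 0 * fourierCoeff v 0 := by
  have h1 := hasSum_inner_fourierCoeff (star u : L2 ℂ) v
  have h2 : ∀ m : ℤ, m ≠ 0 → ⟪fourierCoeff (star u : L2 ℂ) m, fourierCoeff v m⟫_ℂ = 0 := by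
    intro m hm
    rw [coeff_star]
    rcases lt_or_ge m 0 with h0 | h0
    · rw [hv m h0, inner_zero_right]
    · rw [hu (-m) (by omega), map_zero, inner_zero_left]
  have h3 := hasSum_single (0 : ℤ) h2
  rw [h1.unique h3, coeff_star, neg_zero, RCLike.inner_apply, Complex.conj_conj, mul_comm]

lemma inner_star_ms {a : Circ → ℂ} (h : Bdd a) (u v : L2 ℂ) :
    ⟪(star (ms a h u) : L2 ℂ), v⟫_ℂ = ⟪(star u : L2 ℂ), ms a h v⟫_ℂ := by
  rw [L2.inner_def, L2.inner_def]
  apply integral_congr_ae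
  filter_upwards [Lp.coeFn_star (ms a h u), Lp.coeFn_star u, coeFn_ms h u, coeFn_ms h v] with t h1 h2 h3 h4
  rw [h1, h2, h4, Pi.star_apply, Pi.star_apply, h3, RCLike.inner_apply, RCLike.inner_apply,
    starRingEnd_apply, starRingEnd_apply, star_star, star_star]
  ring

end star

end Pool.Agent.H31.TC
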