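import Mathlib
import Pool.Agent.H31.TC3

set_option autoImplicit false
open scoped InnerProductSpace ComplexConjugate ENNReal Matrix
open Filter Topology MeasureTheory AddCircle
open Pool.Agent.Helper917.Hardy
open Pool.Agent.H612R3.BpDefs
open Pool.Agent.H612R3.Bp5 (tau tau_apply tau_sum tau_meas tau_bdd isLinfty_conj tau_single)
open Pool.Agent.H612R3.Bp (mulOp_mulC mulC1_mem toep coe_toep adj_toep shft coe_shft monoH coe_shft_pow)
open Pool.Agent.N293.BT

namespace Pool.Agent.H31.TC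

section ex

variable {a Φ : Circ → ℂ} (ha : Bdd a) (hΦ : Bdd Φ) {n : ℕ} (hn : 1 ≤ n) (hc : IsCoanalyticPoly n Φ)

/-- projection on the orthogonal complement of `H²` -/
noncomputable def Qc : L2 ℂ →L[ℂ] L2 ℂ := ContinuousLinearMap.id ℂ _ - (H2 ℂ).starProjection

lemma Qc_apply (f : L2 ℂ) : Qc f = f - riesz f := rfl

lemma coeff_Qc (f : L2 ℂ) (m : ℤ) : fourierCoeff (Qc f) m = if m < 0 then fourierCoeff f m else 0 := by
  rw [Qc_apply, fourierCoeff_sub', fourierCoeff_riesz]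
  split_ifs <;> simp

lemma Qc_of_mem {f : L2 ℂ} (hf : f ∈ H2 ℂ) : Qc f = 0 := by
  rw [Qc_apply, riesz_eq_self hf, sub_self]

lemma mem_of_Qc {f : L2 ℂ} (hf : Qc f = 0) : f ∈ H2 ℂ := by
  intro m hm
  have := coeff_Qc f m
  rw [hf, if_pos hm] at this
  rw [← this, ← coeffL_apply, map_zero]

lemma coeff_zero (m : ℤ) : fourierCoeff ((0 : L2 ℂ) : Circ → ℂ) m = 0 := by
  rw [← coeffL_apply, map_zero]

lemma inner_star_symm (u v : L2 ℂ) : ⟪(star u : L2 ℂ), v⟫_ℂ = ⟪(star v : L2 ℂ), u⟫_ℂ := by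
  rw [L2.inner_def, L2.inner_def]
  apply integral_congr_ae
  filter_upwards [Lp.coeFn_star u, Lp.coeFn_star v] with t h1 h2
  rw [h1, h2, Pi.star_apply, Pi.star_apply, RCLike.inner_apply, RCLike.inner_apply,
    starRingEnd_apply, starRingEnd_apply, star_star, star_star]
  ring

lemma inner_star_mulC (m : C(Circ, ℂ)) (u v : L2 ℂ) :
    ⟪(star (mulC m u) : L2 ℂ), v⟫_ℂ = ⟪(star u : L2 ℂ), mulC m v⟫_ℂ := by
  rw [L2.inner_def, L2.inner_def]
  apply integral_congr_ae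
  filter_upwards [Lp.coeFn_star (mulC m u), Lp.coeFn_star u, coeFn_mulC m u, coeFn_mulC m v] with t h1 h2 h3 h4
  rw [h1, h2, h4, Pi.star_apply, Pi.star_apply, h3, RCLike.inner_apply, RCLike.inner_apply,
    starRingEnd_apply, starRingEnd_apply, star_star, star_star, smul_eq_mul, smul_eq_mul]
  ring

lemma star_mono (k : ℤ) : (star (mono k (1 : ℂ) : L2 ℂ) : L2 ℂ) = mono (-k) (1 : ℂ) := by
  apply ext_fourierCoeff
  intro m
  rw [coeff_star, fourierCoeff_mono, fourierCoeff_mono]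
  by_cases hm : -m = k
  · rw [if_pos hm, if_pos (by omega), map_one]
  · rw [if_neg hm, if_neg (by omega), map_zero]

include hn hc in
/-- if every `g ∈ H²` with `a g ∈ H²` has `(a g)(0) = 0`, then there is no such `g` other than `0` -/
lemma ex_aux (hQ : ∀ f ∈ H2 ℂ, ‖Qc (ms Φ hΦ f)‖ ≤ ‖Qc (ms a ha f)‖)
    (h0 : ∀ g ∈ H2 ℂ, ms a ha g ∈ H2 ℂ → fourierCoeff (ms a ha g) 0 = 0) (g : L2 ℂ) (hg : g ∈ H2 ℂ)
    (hg' : ms a ha g ∈ H2 ℂ) : g = 0 := by
  have key : ∀ g ∈ H2 ℂ, ms a ha g ∈ H2 ℂ → mulC (fourier (-1)) g ∈ H2 ℂ ∧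
      ms a ha (mulC (fourier (-1)) g) ∈ H2 ℂ := by
    intro g hg hg'
    have h1 := hQ g hg
    rw [Qc_of_mem hg', norm_zero] at h1
    have h2 : ms Φ hΦ g ∈ H2 ℂ := mem_of_Qc (norm_le_zero_iff.1 h1)
    have h3 := co_coeff' hΦ hc g hg
    rw [h2 _ (by omega)] at h3
    have h4 : fourierCoeff g 0 = 0 := by
      rcases mul_eq_zero.1 h3.symm with h | h
      · exact absurd h hc.2
      · exact h
    constructor
    · intro m hm
      rw [fourierCoeff_mulC_fourier]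
      rcases lt_or_ge (m - -1) 0 with h5 | h5
      · exact hg _ h5
      · have : m - -1 = 0 := by omega
        rw [this, h4]
    · intro m hm
      rw [ms_mulC, fourierCoeff_mulC_fourier]
      rcases lt_or_ge (m - -1) 0 with h5 | h5
      · exact hg' _ h5
      · have : m - -1 = 0 := by omega
        rw [this, h0 g hg hg']
  have key2 : ∀ k : ℕ, mulC (fourier (-(k : ℤ))) g ∈ H2 ℂ ∧ ms a ha (mulC (fourier (-(k : ℤ))) g) ∈ H2 ℂ := by
    intro k
    induction k with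
    | zero =>
      have : mulC (fourier (-((0 : ℕ) : ℤ))) g = g := by
        apply ext_fourierCoeff
        intro m
        rw [fourierCoeff_mulC_fourier]
        simp
      rw [this]
      exact ⟨hg, hg'⟩
    | succ k ih =>
      have : mulC (fourier (-((k + 1 : ℕ) : ℤ))) g = mulC (fourier (-1)) (mulC (fourier (-(k : ℤ))) g) := by
        rw [mulC_mulC, fourier_mul]
        congr 2
        push_cast
        ring
      rw [this]
      exact key _ ih.1 ih.2
  apply ext_fourierCoeff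
  intro m
  rw [coeff_zero]
  have h1 := (key2 (m.natAbs + 1)).1 (m - ((m.natAbs + 1 : ℕ) : ℤ)) (by omega)
  rw [fourierCoeff_mulC_fourier] at h1
  convert h1 using 2
  omega

include hn hc in
/-- existence of `g ∈ H²` with `a g ∈ H²` and `(a g)(0) ≠ 0` -/
lemma exists_g (hQ : ∀ f ∈ H2 ℂ, ‖Qc (ms Φ hΦ f)‖ ≤ ‖Qc (ms a ha f)‖) :
    ∃ g ∈ H2 ℂ, ms a ha g ∈ H2 ℂ ∧ fourierCoeff (ms a ha g) 0 ≠ 0 := by
  by_contra hcon
  push Not at hcon
  have hz : ∀ g ∈ H2 ℂ, ms a ha g ∈ H2 ℂ → g = 0 := ex_aux ha hΦ hn hc hQ hcon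
  let L : L2 ℂ →L[ℂ] L2 ℂ := (Qc.comp (ms a ha)).comp (mulC (fourier (n : ℤ)))
  have hL : ∀ f, L f = Qc (ms a ha (mulC (fourier (n : ℤ)) f)) := fun f => rfl
  let S : Submodule ℂ (L2 ℂ) := (H2 ℂ).map L.toLinearMap
  let w0 : L2 ℂ := mono ((n : ℤ) - 1) (1 : ℂ)
  have hw0 : w0 ∈ H2 ℂ := mono_mem_H2 _ (by omega) _
  let w : L2 ℂ := Qc (ms a ha w0)
  -- orthogonal complement
  have horth : ∀ x ∈ Sᗮ, Qc x = 0 := by
    intro x hx
    rw [Submodule.mem_orthogonal] at hx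
    let y : L2 ℂ := star (Qc x)
    have hyc : ∀ m : ℤ, m ≤ 0 → fourierCoeff y m = 0 := by
      intro m hm
      rw [coeff_star, coeff_Qc, if_neg (by omega), map_zero]
    have hyx : (star y : L2 ℂ) = Qc x := star_star _
    have hny : mulC (fourier (n : ℤ)) y ∈ H2 ℂ := by
      intro m hm
      rw [fourierCoeff_mulC_fourier]
      exact hyc _ (by omega)
    have h1 : ms a ha (mulC (fourier (n : ℤ)) y) ∈ H2 ℂ := by
      intro m hm
      obtain ⟨k, hk⟩ : ∃ k : ℕ, m = -(k : ℤ) := ⟨m.natAbs, by omega⟩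
      have h2 := hx (L (mono (k : ℤ) (1 : ℂ))) ⟨_, mono_mem_H2 _ (by omega) _, rfl⟩
      rw [hL] at h2
      -- `⟪Q u, x⟫ = ⟪u, Q x⟫`
      have h3 : ∀ u : L2 ℂ, ⟪Qc u, x⟫_ℂ = ⟪u, Qc x⟫_ℂ := by
        intro u
        rw [Qc_apply, Qc_apply, inner_sub_left, inner_sub_right]
        congr 1
        exact (H2 ℂ).inner_starProjection_left_eq_right u x
      rw [h3, ← hyx, ← inner_conj_symm, ← inner_star_ms, ← inner_star_mulC, inner_star_symm, star_mono,
        inner_mono, ← ms_mulC] at h2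
      have h4 : (⟪(1 : ℂ), fourierCoeff (ms a ha (mulC (fourier (n : ℤ)) y)) (-(k : ℤ))⟫_ℂ) = 0 := by
        rw [← Complex.conj_conj (⟪(1 : ℂ), fourierCoeff (ms a ha (mulC (fourier (n : ℤ)) y)) (-(k : ℤ))⟫_ℂ), h2, map_zero]
      rw [RCLike.inner_apply, map_one, mul_one] at h4
      rw [hk, h4]
    have h2 := hz _ hny h1
    have h3 : y = 0 := by
      apply ext_fourierCoeff
      intro m
      have h4 := congrArg (fun u : L2 ℂ => fourierCoeff u (m + n)) h2
      simp only [fourierCoeff_mulC_fourier, add_sub_cancel_right] at h4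
      rw [h4, coeff_zero, coeff_zero]
    rw [← hyx, h3]
    apply ext_fourierCoeff
    intro m
    rw [coeff_star, coeff_zero, coeff_zero, map_zero]
  have hcl : w ∈ S.topologicalClosure := by
    rw [← Submodule.orthogonal_orthogonal_eq_closure, Submodule.mem_orthogonal]
    intro x hx
    have h1 := horth x hx
    have h2 : ⟪x, w⟫_ℂ = ⟪Qc x, ms a ha w0⟫_ℂ := by
      show ⟪x, Qc (ms a ha w0)⟫_ℂ = _
      rw [Qc_apply, Qc_apply, inner_sub_left, inner_sub_right]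
      congr 1
      exact ((H2 ℂ).inner_starProjection_left_eq_right x _).symm
    rw [h2, h1, inner_zero_left]
  have hcl2 : w ∈ closure (S : Set (L2 ℂ)) := hcl
  rw [Metric.mem_closure_iff] at hcl2
  obtain ⟨b, hb, hbd⟩ := hcl2 ‖fourierCoeff Φ (-(n : ℤ))‖ (norm_pos_iff.2 hc.2)
  obtain ⟨f, hf, rfl⟩ := hb
  rw [dist_eq_norm] at hbd
  have hfn : mulC (fourier (n : ℤ)) f ∈ H2 ℂ := mulC_fourier_mem hf n
  have h1 := hQ (w0 - mulC (fourier (n : ℤ)) f) ((H2 ℂ).sub_mem hw0 hfn)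
  have h2 : Qc (ms a ha (w0 - mulC (fourier (n : ℤ)) f)) = w - L f := by
    rw [map_sub, map_sub]
    rfl
  have h3 : fourierCoeff (Qc (ms Φ hΦ (w0 - mulC (fourier (n : ℤ)) f))) (-1) = fourierCoeff Φ (-(n : ℤ)) := by
    rw [coeff_Qc, if_pos (by norm_num), map_sub, fourierCoeff_sub', ms_mulC, fourierCoeff_mulC_fourier,
      co_coeff hΦ hc f hf _ (by omega), sub_zero]
    have h4 : w0 = mulC (fourier ((n : ℤ) - 1)) (mono 0 (1 : ℂ)) := by
      apply ext_fourierCoeff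
      intro m
      rw [fourierCoeff_mulC_fourier, fourierCoeff_mono, fourierCoeff_mono]
      by_cases hm : m = (n : ℤ) - 1
      · rw [if_pos hm, if_pos (by omega)]
      · rw [if_neg hm, if_neg (by omega)]
    rw [h4, ms_mulC, fourierCoeff_mulC_fourier]
    have h5 : (-1 : ℤ) - ((n : ℤ) - 1) = -(n : ℤ) := by ring
    rw [h5, co_coeff' hΦ hc _ (mono_mem_H2 0 le_rfl _), fourierCoeff_mono, if_pos rfl, mul_one]
  have h4 := norm_fourierCoeff_le (Qc (ms Φ hΦ (w0 - mulC (fourier (n : ℤ)) f))) (-1)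
  rw [h3] at h4
  rw [h2] at h1
  exact absurd (h4.trans h1) (not_le.2 hbd)

end ex

end Pool.Agent.H31.TC
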