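import Mathlib
import Pool.Agent.H31.TC4

set_option autoImplicit false
open scoped InnerProductSpace ComplexConjugate ENNReal Matrix
open Filter Topology MeasureTheory AddCircle
open Pool.Agent.Helper917.Hardy
open Pool.Agent.H612R3.BpDefs
open Pool.Agent.H612R3.Bp5 (tau tau_apply tau_sum tau_meas tau_bdd isLinfty_conj tau_single)
open Pool.Agent.H612R3.Bp (mulOp_mulC mulC1_mem toep coe_toep adj_toep shft coe_shft monoH coe_shft_pow)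
open Pool.Agent.N293.BT

namespace Pool.Agent.H31.TC

noncomputable def J (i : Fin 2) : ℂ →L[ℂ] E2 :=
  ContinuousLinearMap.toSpanSingleton ℂ (EuclideanSpace.single i (1 : ℂ))

/-- the pair `(u, v)` as an element of `L²(E2)` -/
noncomputable def mk2 (u v : L2 ℂ) : L2 E2 := (J 0).compLp u + (J 1).compLp v

lemma J_sum (x y : ℂ) : J 0 x + J 1 y = (WithLp.toLp 2 ![x, y] : E2) := by
  ext i
  fin_cases i <;> simp [J]

lemma coeFn_mk2 (u v : L2 ℂ) : mk2 u v =ᵐ[mu] fun t => (WithLp.toLp 2 ![u t, v t] : E2) := by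
  filter_upwards [Lp.coeFn_add ((J 0).compLp u) ((J 1).compLp v), (J 0).coeFn_compLp' u,
    (J 1).coeFn_compLp' v] with t h1 h2 h3
  rw [← J_sum, ← h2, ← h3]
  exact h1

lemma coeff_mk2 (u v : L2 ℂ) (m : ℤ) :
    fourierCoeff (mk2 u v) m = (WithLp.toLp 2 ![fourierCoeff u m, fourierCoeff v m] : E2) := by
  rw [mk2, fourierCoeff_add', fourierCoeff_congr_ae ((J 0).coeFn_compLp' u),
    fourierCoeff_congr_ae ((J 1).coeFn_compLp' v), fourierCoeff_clm_apply _ _ (integrable_L2 u),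
    fourierCoeff_clm_apply _ _ (integrable_L2 v), J_sum]

lemma toLp_inj {x y x' y' : ℂ} (h : (WithLp.toLp 2 ![x, y] : E2) = WithLp.toLp 2 ![x', y']) :
    x = x' ∧ y = y' :=
  ⟨congrArg (fun u : E2 => u 0) h, congrArg (fun u : E2 => u 1) h⟩

lemma toLp_zero : (WithLp.toLp 2 ![(0 : ℂ), 0] : E2) = 0 := by
  ext i
  fin_cases i <;> simp

lemma inner_toLp (x y x' y' : ℂ) : ⟪(WithLp.toLp 2 ![x, y] : E2), WithLp.toLp 2 ![x', y']⟫_ℂ =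
    conj x * x' + conj y * y' := by
  rw [PiLp.inner_apply, Fin.sum_univ_two]
  simp only [RCLike.inner_apply]
  show x' * conj x + y' * conj y = _
  ring

lemma norm_toLp (x y : ℂ) : ‖(WithLp.toLp 2 ![x, y] : E2)‖ ^ 2 = ‖x‖ ^ 2 + ‖y‖ ^ 2 := by
  rw [EuclideanSpace.norm_sq_eq, Fin.sum_univ_two]
  rfl

lemma mem_mk2 {u v : L2 ℂ} : mk2 u v ∈ H2 E2 ↔ u ∈ H2 ℂ ∧ v ∈ H2 ℂ := by
  constructor
  · intro h
    constructor
    · intro m hm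
      have := h m hm
      rw [coeff_mk2, ← toLp_zero] at this
      exact (toLp_inj this).1
    · intro m hm
      have := h m hm
      rw [coeff_mk2, ← toLp_zero] at this
      exact (toLp_inj this).2
  · rintro ⟨h1, h2⟩ m hm
    rw [coeff_mk2, h1 m hm, h2 m hm, toLp_zero]

lemma mulC_mk2 (m : C(Circ, ℂ)) (u v : L2 ℂ) : mulC m (mk2 u v) = mk2 (mulC m u) (mulC m v) := by
  apply Lp.ext
  filter_upwards [coeFn_mulC m (mk2 u v), coeFn_mk2 u v, coeFn_mk2 (mulC m u) (mulC m v), coeFn_mulC m u,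
    coeFn_mulC m v] with t h1 h2 h3 h4 h5
  rw [h1, h2, h3, h4, h5]
  ext i
  fin_cases i <;> simp

lemma norm_mk2 (u v : L2 ℂ) : ‖mk2 u v‖ ^ 2 = ‖u‖ ^ 2 + ‖v‖ ^ 2 := by
  have h1 := hasSum_sq_norm_fourierCoeff (mk2 u v)
  have h2 := (hasSum_sq_norm_fourierCoeff u).add (hasSum_sq_norm_fourierCoeff v)
  have h3 : ∀ m : ℤ, ‖fourierCoeff (mk2 u v) m‖ ^ 2 = ‖fourierCoeff u m‖ ^ 2 + ‖fourierCoeff v m‖ ^ 2 := by
    intro m
    rw [coeff_mk2, norm_toLp]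
  simp only [h3] at h1
  exact h1.unique h2

lemma sub_riesz_mk2 (u v : L2 ℂ) : mk2 u v - riesz (mk2 u v) = mk2 (Qc u) (Qc v) := by
  apply ext_fourierCoeff
  intro m
  rw [fourierCoeff_sub', fourierCoeff_riesz, coeff_mk2, coeff_mk2, coeff_Qc, coeff_Qc]
  split_ifs with h
  · rw [sub_zero]
  · rw [sub_self, toLp_zero]

lemma norm_riesz_mk2 (u v : L2 ℂ) :
    ‖riesz (mk2 u v)‖ ^ 2 = ‖mk2 u v‖ ^ 2 - (‖Qc u‖ ^ 2 + ‖Qc v‖ ^ 2) := by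
  rw [pyth, sub_riesz_mk2, norm_mk2 (Qc u)]

section main

variable {Φ Ψ α β : Circ → ℂ} (hΘ : IsLinfty (fun t => !![Φ t, α t; β t, Ψ t]))

include hΘ in
lemma bΦ : Bdd Φ := ⟨hΘ.1 0 0, hΘ.2.imp fun C hC => by filter_upwards [hC] with t ht using ht 0 0⟩
include hΘ in
lemma bα : Bdd α := ⟨hΘ.1 0 1, hΘ.2.imp fun C hC => by filter_upwards [hC] with t ht using ht 0 1⟩
include hΘ in
lemma bβ : Bdd β := ⟨hΘ.1 1 0, hΘ.2.imp fun C hC => by filter_upwards [hC] with t ht using ht 1 0⟩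
include hΘ in
lemma bΨ : Bdd Ψ := ⟨hΘ.1 1 1, hΘ.2.imp fun C hC => by filter_upwards [hC] with t ht using ht 1 1⟩

lemma MM_mk2 (u v : L2 ℂ) : MM _ hΘ (mk2 u v) =
    mk2 (ms Φ (bΦ hΘ) u + ms α (bα hΘ) v) (ms β (bβ hΘ) u + ms Ψ (bΨ hΘ) v) := by
  apply Lp.ext
  filter_upwards [coeFn_MM hΘ (mk2 u v), coeFn_mk2 u v,
    coeFn_mk2 (ms Φ (bΦ hΘ) u + ms α (bα hΘ) v) (ms β (bβ hΘ) u + ms Ψ (bΨ hΘ) v),
    Lp.coeFn_add (ms Φ (bΦ hΘ) u) (ms α (bα hΘ) v), Lp.coeFn_add (ms β (bβ hΘ) u) (ms Ψ (bΨ hΘ) v),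
    coeFn_ms (bΦ hΘ) u, coeFn_ms (bα hΘ) v, coeFn_ms (bβ hΘ) u, coeFn_ms (bΨ hΘ) v]
    with t h1 h2 h3 h4 h5 h6 h7 h8 h9
  rw [h1, h2, h3, h4, h5, Pi.add_apply, Pi.add_apply, h6, h7, h8, h9, tau_apply]
  ext i
  fin_cases i <;> simp [Matrix.mulVec, dotProduct, Fin.sum_univ_two]

lemma MM'_mk2 (u v : L2 ℂ) : MM' _ hΘ (mk2 u v) =
    mk2 (ms _ (bΦ hΘ).cj u + ms _ (bβ hΘ).cj v) (ms _ (bα hΘ).cj u + ms _ (bΨ hΘ).cj v) := by
  apply Lp.ext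
  filter_upwards [coeFn_MM (isLinfty_conj hΘ) (mk2 u v), coeFn_mk2 u v,
    coeFn_mk2 (ms _ (bΦ hΘ).cj u + ms _ (bβ hΘ).cj v) (ms _ (bα hΘ).cj u + ms _ (bΨ hΘ).cj v),
    Lp.coeFn_add (ms _ (bΦ hΘ).cj u) (ms _ (bβ hΘ).cj v), Lp.coeFn_add (ms _ (bα hΘ).cj u) (ms _ (bΨ hΘ).cj v),
    coeFn_ms (bΦ hΘ).cj u, coeFn_ms (bβ hΘ).cj v, coeFn_ms (bα hΘ).cj u, coeFn_ms (bΨ hΘ).cj v]
    with t h1 h2 h3 h4 h5 h6 h7 h8 h9
  rw [h1, h2, h3, h4, h5, Pi.add_apply, Pi.add_apply, h6, h7, h8, h9, tau_apply]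
  ext i
  fin_cases i <;> simp [Matrix.mulVec, dotProduct, Fin.sum_univ_two, Matrix.conjTranspose_apply]

end main

end Pool.Agent.H31.TC
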