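import Mathlib
import Pool.Agent.H31.TC5

set_option autoImplicit false
open scoped InnerProductSpace ComplexConjugate ENNReal Matrix
open Filter Topology MeasureTheory AddCircle
open Pool.Agent.Helper917.Hardy
open Pool.Agent.H612R3.BpDefs
open Pool.Agent.H612R3.Bp5 (tau tau_apply tau_sum tau_meas tau_bdd isLinfty_conj tau_single)
open Pool.Agent.H612R3.Bp (mulOp_mulC mulC1_mem toep coe_toep adj_toep shft coe_shft monoH coe_shft_pow)
open Pool.Agent.N293.BT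

namespace Pool.Agent.H31.TC

lemma gram_lem (R P : Matrix (Fin 2) (Fin 2) ℂ) (h : Rᴴ * R = Pᴴ * P) (hP : P.det ≠ 0)
    (u v u' v' : Fin 2 → ℂ) (h1 : Rᴴ *ᵥ u = Pᴴ *ᵥ v) (h2 : Rᴴ *ᵥ u' = Pᴴ *ᵥ v') :
    star u ⬝ᵥ u' = star v ⬝ᵥ v' := by
  have hR : R.det ≠ 0 := by
    intro h0
    have h3 := congrArg Matrix.det h
    rw [Matrix.det_mul, Matrix.det_mul, h0, mul_zero, Matrix.det_conjTranspose] at h3
    rcases mul_eq_zero.1 h3.symm with h4 | h4
    · exact hP (star_eq_zero.1 h4)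
    · exact hP h4
  have hRu : IsUnit R.det := isUnit_iff_ne_zero.2 hR
  have hRu' : IsUnit Rᴴ.det := by
    rw [Matrix.det_conjTranspose]
    exact hRu.star
  have hW1 : (P * R⁻¹)ᴴ * (P * R⁻¹) = 1 := by
    rw [Matrix.conjTranspose_mul, Matrix.mul_assoc, ← Matrix.mul_assoc Pᴴ, ← h, Matrix.mul_assoc Rᴴ,
      Matrix.mul_nonsing_inv _ hRu, Matrix.mul_one, Matrix.conjTranspose_nonsing_inv,
      Matrix.nonsing_inv_mul _ hRu']
  have hW2 : (P * R⁻¹) * (P * R⁻¹)ᴴ = 1 := mul_eq_one_comm.1 hW1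
  have key : ∀ u v : Fin 2 → ℂ, Rᴴ *ᵥ u = Pᴴ *ᵥ v → u = (P * R⁻¹)ᴴ *ᵥ v := by
    intro u v huv
    rw [Matrix.conjTranspose_mul, ← Matrix.mulVec_mulVec, ← huv, Matrix.conjTranspose_nonsing_inv,
      Matrix.mulVec_mulVec, Matrix.nonsing_inv_mul _ hRu', Matrix.one_mulVec]
  rw [key u v h1, key u' v' h2, Matrix.star_mulVec, Matrix.conjTranspose_conjTranspose,
    ← Matrix.dotProduct_mulVec, Matrix.mulVec_mulVec, hW2, Matrix.one_mulVec]

/-- the algebra of case A -/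
lemma caseA_alg (n : ℕ) (hn : 1 ≤ n) (A D a b a' b' : ℕ → ℂ)
    (hA : ∀ k, n < k → A k = 0) (hD : ∀ k, n < k → D k = 0) (hAn : A n ≠ 0) (hDn : D n ≠ 0)
    (x0 x1 y0 y1 x0' x1' y0' y1' : ℂ) (hdet : y0 * y1' - y1 * y0' ≠ 0)
    (g1 : conj x0 * x0 + conj x1 * x1 = conj y0 * y0 + conj y1 * y1)
    (g2 : conj x0 * x0' + conj x1 * x1' = conj y0 * y0' + conj y1 * y1')
    (g3 : conj x0' * x0 + conj x1' * x1 = conj y0' * y0 + conj y1' * y1)
    (g4 : conj x0' * x0' + conj x1' * x1' = conj y0' * y0' + conj y1' * y1')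
    (t0 : ∀ j, 1 ≤ j → conj x0 * A j + conj x1 * b' j = conj y0 * 0 + conj y1 * conj (a j))
    (t1 : ∀ j, 1 ≤ j → conj x0 * a' j + conj x1 * D j = conj y0 * conj (b j) + conj y1 * 0)
    (t0' : ∀ j, 1 ≤ j → conj x0' * A j + conj x1' * b' j = conj y0' * 0 + conj y1' * conj (a j))
    (t1' : ∀ j, 1 ≤ j → conj x0' * a' j + conj x1' * D j = conj y0' * conj (b j) + conj y1' * 0) :
    ∀ k, n < k → a k = 0 ∧ b k = 0 ∧ a' k = 0 ∧ b' k = 0 := by
  have key : ∀ u0 u1 v0 v1 u0' u1' v0' v1' : ℂ,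
      conj x0 * u0 + conj x1 * u1 = conj y0 * v0 + conj y1 * v1 →
      conj x0' * u0 + conj x1' * u1 = conj y0' * v0 + conj y1' * v1 →
      conj x0 * u0' + conj x1 * u1' = conj y0 * v0' + conj y1 * v1' →
      conj x0' * u0' + conj x1' * u1' = conj y0' * v0' + conj y1' * v1' →
      conj u0 * u0' + conj u1 * u1' = conj v0 * v0' + conj v1 * v1' := by
    intro u0 u1 v0 v1 u0' u1' v0' v1' e1 e2 e3 e4
    have h := gram_lem !![x0, x0'; x1, x1'] !![y0, y0'; y1, y1'] (by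
      ext i j
      fin_cases i <;> fin_cases j <;>
      simp [Matrix.mul_apply, Fin.sum_univ_two, Matrix.conjTranspose_apply] <;> assumption) (by
      rw [Matrix.det_fin_two_of]
      intro h0
      apply hdet
      linear_combination h0) ![u0, u1] ![v0, v1] ![u0', u1'] ![v0', v1'] (by
      ext i
      fin_cases i <;>
      simp [Matrix.mulVec, dotProduct, Fin.sum_univ_two, Matrix.conjTranspose_apply] <;> assumption) (by
      ext i
      fin_cases i <;>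
      simp [Matrix.mulVec, dotProduct, Fin.sum_univ_two, Matrix.conjTranspose_apply] <;> assumption)
    simpa [dotProduct, Fin.sum_univ_two] using h
  obtain ⟨μ, u, v, -, -, hk⟩ := algebra_rel n hn A D a b a' b' hA hD hAn hDn
    (by
      intro j k hj hk
      have h := key (A j) (b' j) 0 (conj (a j)) (A k) (b' k) 0 (conj (a k)) (t0 j hj) (t0' j hj) (t0 k hk)
        (t0' k hk)
      rw [h, Complex.conj_conj, map_zero]
      ring)
    (by
      intro j k hj hk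
      have h := key (A j) (b' j) 0 (conj (a j)) (a' k) (D k) (conj (b k)) 0 (t0 j hj) (t0' j hj) (t1 k hk)
        (t1' k hk)
      rw [h, map_zero]
      ring)
    (by
      intro j k hj hk
      have h := key (a' j) (D j) (conj (b j)) 0 (a' k) (D k) (conj (b k)) 0 (t1 j hj) (t1' j hj) (t1 k hk)
        (t1' k hk)
      rw [h, Complex.conj_conj, map_zero]
      ring)
  intro k hkn
  obtain ⟨h1, h2, h3, h4⟩ := hk k (by omega)
  rw [h1, h2, h3, h4, hA k hkn, hD k hkn]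
  simp

/-- the constant function `1` -/
noncomputable def on : L2 ℂ := mono 0 (1 : ℂ)

lemma on_mem : on ∈ H2 ℂ := mono_mem_H2 0 le_rfl _

lemma coeff_on {a : Circ → ℂ} (h : Bdd a) (m : ℤ) : fourierCoeff (ms a h on) m = fourierCoeff a m := by
  refine congrFun (fourierCoeff_congr_ae ?_) m
  filter_upwards [coeFn_ms h on, coeFn_mono 0 (1 : ℂ)] with t h1 h2
  rw [h1, on, h2, fourier_zero, one_smul, mul_one]

section main

variable {Φ Ψ α β : Circ → ℂ} (hΘ : IsLinfty (fun t => !![Φ t, α t; β t, Ψ t]))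

/-- all `z^k f` are in the kernel of `[T*, T]` -/
def Fam (f : L2 E2) : Prop := ∀ k : ℕ, KD hΘ (mulC (fourier (k : ℤ)) f)

lemma mulC_zero' (f : L2 E2) : mulC (fourier ((0 : ℕ) : ℤ)) f = f := by
  apply ext_fourierCoeff
  intro m
  rw [fourierCoeff_mulC_fourier]
  simp

lemma Fam.mem {f : L2 E2} (h : Fam hΘ f) : f ∈ H2 E2 := by
  have := (h 0).1
  rwa [mulC_zero'] at this

lemma MM_e0 : MM _ hΘ (mk2 on 0) = mk2 (ms Φ (bΦ hΘ) on) (ms β (bβ hΘ) on) := by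
  rw [MM_mk2, map_zero, map_zero, add_zero, add_zero]

lemma MM_e1 : MM _ hΘ (mk2 0 on) = mk2 (ms α (bα hΘ) on) (ms Ψ (bΨ hΘ) on) := by
  rw [MM_mk2, map_zero, map_zero, zero_add, zero_add]

lemma MM'_e0 : MM' _ hΘ (mk2 on 0) = mk2 (ms _ (bΦ hΘ).cj on) (ms _ (bα hΘ).cj on) := by
  rw [MM'_mk2, map_zero, map_zero, add_zero, add_zero]

lemma MM'_e1 : MM' _ hΘ (mk2 0 on) = mk2 (ms _ (bβ hΘ).cj on) (ms _ (bΨ hΘ).cj on) := by
  rw [MM'_mk2, map_zero, map_zero, zero_add, zero_add]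

variable (hS : IsSubnormalOp (TT _ hΘ)) {n : ℕ} (hn : 1 ≤ n) (hcΦ : IsCoanalyticPoly n Φ)
  (hcΨ : IsCoanalyticPoly n Ψ)

include hS hcΦ in
lemma test0 (f : L2 E2) (hf : Fam hΘ f) (i j : ℕ) :
    conj (fourierCoeff (MM _ hΘ f) (-1 - i) 0) * fourierCoeff Φ (-1 - j) +
    conj (fourierCoeff (MM _ hΘ f) (-1 - i) 1) * fourierCoeff β (-1 - j) =
    conj (fourierCoeff (MM' _ hΘ f) (-1 - i) 0) * 0 +
    conj (fourierCoeff (MM' _ hΘ f) (-1 - i) 1) * conj (fourierCoeff α (1 + j)) := by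
  have h := rel hΘ hS f hf (mk2 on 0) (mem_mk2.2 ⟨on_mem, (H2 ℂ).zero_mem⟩) i j
  rw [MM_e0, MM'_e0, coeff_mk2, coeff_mk2, PiLp.inner_apply, PiLp.inner_apply, Fin.sum_univ_two,
    Fin.sum_univ_two] at h
  simp only [RCLike.inner_apply, Matrix.cons_val_zero, Matrix.cons_val_one, coeff_on,
    fourierCoeff_conj] at h
  have e1 : -(-1 - (j : ℤ)) = 1 + j := by ring
  rw [e1, hcΦ.1 (1 + j) (Or.inr (by omega)), map_zero] at h
  linear_combination h

include hS hcΨ in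
lemma test1 (f : L2 E2) (hf : Fam hΘ f) (i j : ℕ) :
    conj (fourierCoeff (MM _ hΘ f) (-1 - i) 0) * fourierCoeff α (-1 - j) +
    conj (fourierCoeff (MM _ hΘ f) (-1 - i) 1) * fourierCoeff Ψ (-1 - j) =
    conj (fourierCoeff (MM' _ hΘ f) (-1 - i) 0) * conj (fourierCoeff β (1 + j)) +
    conj (fourierCoeff (MM' _ hΘ f) (-1 - i) 1) * 0 := by
  have h := rel hΘ hS f hf (mk2 0 on) (mem_mk2.2 ⟨(H2 ℂ).zero_mem, on_mem⟩) i j
  rw [MM_e1, MM'_e1, coeff_mk2, coeff_mk2, PiLp.inner_apply, PiLp.inner_apply, Fin.sum_univ_two,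
    Fin.sum_univ_two] at h
  simp only [RCLike.inner_apply, Matrix.cons_val_zero, Matrix.cons_val_one, coeff_on,
    fourierCoeff_conj] at h
  have e1 : -(-1 - (j : ℤ)) = 1 + j := by ring
  rw [e1, hcΨ.1 (1 + j) (Or.inr (by omega)), map_zero] at h
  linear_combination h

include hS in
lemma gramF (f f' : L2 E2) (hf : Fam hΘ f) (hf' : Fam hΘ f') (i j : ℕ) :
    conj (fourierCoeff (MM _ hΘ f) (-1 - i) 0) * fourierCoeff (MM _ hΘ f') (-1 - j) 0 +
    conj (fourierCoeff (MM _ hΘ f) (-1 - i) 1) * fourierCoeff (MM _ hΘ f') (-1 - j) 1 =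
    conj (fourierCoeff (MM' _ hΘ f) (-1 - i) 0) * fourierCoeff (MM' _ hΘ f') (-1 - j) 0 +
    conj (fourierCoeff (MM' _ hΘ f) (-1 - i) 1) * fourierCoeff (MM' _ hΘ f') (-1 - j) 1 := by
  have h := rel hΘ hS f hf f' (Fam.mem hΘ hf') i j
  rw [PiLp.inner_apply, PiLp.inner_apply, Fin.sum_univ_two, Fin.sum_univ_two] at h
  simp only [RCLike.inner_apply] at h
  linear_combination h

include hS hn hcΦ hcΨ in
/-- case A -/
lemma caseA (f f' : L2 E2) (hf : Fam hΘ f) (hf' : Fam hΘ f') (i j : ℕ)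
    (hdet : fourierCoeff (MM' _ hΘ f) (-1 - i) 0 * fourierCoeff (MM' _ hΘ f') (-1 - j) 1 -
      fourierCoeff (MM' _ hΘ f) (-1 - i) 1 * fourierCoeff (MM' _ hΘ f') (-1 - j) 0 ≠ 0) :
    ∀ k : ℕ, n < k → fourierCoeff α k = 0 ∧ fourierCoeff β k = 0 ∧ fourierCoeff α (-(k : ℤ)) = 0 ∧
      fourierCoeff β (-(k : ℤ)) = 0 := by
  have hsucc : ∀ j : ℕ, 1 ≤ j → ∃ j' : ℕ, -1 - (j' : ℤ) = -(j : ℤ) ∧ 1 + (j' : ℤ) = (j : ℤ) := by
    intro j hj
    exact ⟨j - 1, by omega, by omega⟩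
  refine caseA_alg n hn (fun k => fourierCoeff Φ (-(k : ℤ))) (fun k => fourierCoeff Ψ (-(k : ℤ)))
    (fun k => fourierCoeff α k) (fun k => fourierCoeff β k)
    (fun k => fourierCoeff α (-(k : ℤ))) (fun k => fourierCoeff β (-(k : ℤ)))
    (fun k hk => hcΦ.1 _ (Or.inl (by omega))) (fun k hk => hcΨ.1 _ (Or.inl (by omega))) hcΦ.2 hcΨ.2
    _ _ _ _ _ _ _ _ hdet (gramF hΘ hS f f hf hf i i) (gramF hΘ hS f f' hf hf' i j)
    (gramF hΘ hS f' f hf' hf j i) (gramF hΘ hS f' f' hf' hf' j j) ?_ ?_ ?_ ?_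
  · intro k hk
    obtain ⟨k', h1, h2⟩ := hsucc k hk
    have := test0 hΘ hS hcΦ f hf i k'
    rw [h1, h2] at this
    exact this
  · intro k hk
    obtain ⟨k', h1, h2⟩ := hsucc k hk
    have := test1 hΘ hS hcΨ f hf i k'
    rw [h1, h2] at this
    exact this
  · intro k hk
    obtain ⟨k', h1, h2⟩ := hsucc k hk
    have := test0 hΘ hS hcΦ f' hf' j k'
    rw [h1, h2] at this
    exact this
  · intro k hk
    obtain ⟨k', h1, h2⟩ := hsucc k hk
    have := test1 hΘ hS hcΨ f' hf' j k'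
    rw [h1, h2] at this
    exact this

end main

end Pool.Agent.H31.TC
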