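import Mathlib
import Pool.Agent.H31.TC6

set_option autoImplicit false
open scoped InnerProductSpace ComplexConjugate ENNReal Matrix
open Filter Topology MeasureTheory AddCircle
open Pool.Agent.Helper917.Hardy
open Pool.Agent.H612R3.BpDefs
open Pool.Agent.H612R3.Bp5 (tau tau_apply tau_sum tau_meas tau_bdd isLinfty_conj tau_single)
open Pool.Agent.H612R3.Bp (mulOp_mulC mulC1_mem toep coe_toep adj_toep shft coe_shft monoH coe_shft_pow)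
open Pool.Agent.N293.BT

namespace Pool.Agent.H31.TC

lemma norm_Qc_eq (x y : L2 ℂ) (h : ∀ m : ℤ, m < 0 → ‖fourierCoeff x m‖ = ‖fourierCoeff y m‖) :
    ‖Qc x‖ ^ 2 = ‖Qc y‖ ^ 2 := by
  have h1 := hasSum_sq_norm_fourierCoeff (Qc x)
  have h2 := hasSum_sq_norm_fourierCoeff (Qc y)
  have h3 : ∀ m : ℤ, ‖fourierCoeff (Qc x) m‖ ^ 2 = ‖fourierCoeff (Qc y) m‖ ^ 2 := by
    intro m
    rw [coeff_Qc, coeff_Qc]
    split_ifs with hm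
    · rw [h m hm]
    · rfl
  simp only [h3] at h1
  exact h1.unique h2

section main

variable {Φ Ψ α β : Circ → ℂ} (hΘ : IsLinfty (fun t => !![Φ t, α t; β t, Ψ t]))
variable (hS : IsSubnormalOp (TT _ hΘ)) {n : ℕ} (hn : 1 ≤ n) (hcΦ : IsCoanalyticPoly n Φ)
  (hcΨ : IsCoanalyticPoly n Ψ)

include hS in
lemma hypQ (u v : L2 ℂ) (hu : u ∈ H2 ℂ) (hv : v ∈ H2 ℂ) :
    ‖Qc (ms Φ (bΦ hΘ) u + ms α (bα hΘ) v)‖ ^ 2 + ‖Qc (ms β (bβ hΘ) u + ms Ψ (bΨ hΘ) v)‖ ^ 2 ≤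
    ‖Qc (ms _ (bΦ hΘ).cj u + ms _ (bβ hΘ).cj v)‖ ^ 2 +
      ‖Qc (ms _ (bα hΘ).cj u + ms _ (bΨ hΘ).cj v)‖ ^ 2 := by
  have h1 := hyp hΘ hS (mk2 u v) (mem_mk2.2 ⟨hu, hv⟩)
  have h2 := pow_le_pow_left₀ (norm_nonneg _) h1 2
  have h3 := MM_norm hΘ hS (mk2 u v)
  rw [MM_mk2, MM'_mk2] at h2 h3
  rw [norm_riesz_mk2, norm_riesz_mk2, h3] at h2
  linarith

include hS in
lemma KD_mk2 (u v : L2 ℂ) (hu : u ∈ H2 ℂ) (hv : v ∈ H2 ℂ)
    (h : ‖Qc (ms Φ (bΦ hΘ) u + ms α (bα hΘ) v)‖ ^ 2 + ‖Qc (ms β (bβ hΘ) u + ms Ψ (bΨ hΘ) v)‖ ^ 2 =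
    ‖Qc (ms _ (bΦ hΘ).cj u + ms _ (bβ hΘ).cj v)‖ ^ 2 +
      ‖Qc (ms _ (bα hΘ).cj u + ms _ (bΨ hΘ).cj v)‖ ^ 2) : KD hΘ (mk2 u v) := by
  refine ⟨mem_mk2.2 ⟨hu, hv⟩, ?_⟩
  refine (pow_left_inj₀ (norm_nonneg _) (norm_nonneg _) two_ne_zero).1 ?_
  have h3 := MM_norm hΘ hS (mk2 u v)
  rw [MM_mk2, MM'_mk2] at h3 ⊢
  rw [norm_riesz_mk2, norm_riesz_mk2, h3]
  linarith

include hΘ hS in
lemma abs_ae : ∀ᵐ t ∂mu, conj (β t) * β t = conj (α t) * α t := by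
  filter_upwards [normal_ae hΘ hS] with t ht
  have h := congrFun (congrFun ht 0) 0
  simp only [Matrix.mul_apply, Fin.sum_univ_two, Matrix.conjTranspose_apply] at h
  change conj (Φ t) * Φ t + conj (β t) * β t = Φ t * conj (Φ t) + α t * conj (α t) at h
  linear_combination h

include hS in
lemma bb (f : L2 ℂ) : ms _ (bβ hΘ).cj (ms β (bβ hΘ) f) = ms α (bα hΘ) (ms _ (bα hΘ).cj f) := by
  apply Lp.ext
  filter_upwards [coeFn_ms (bβ hΘ).cj (ms β (bβ hΘ) f), coeFn_ms (bβ hΘ) f,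
    coeFn_ms (bα hΘ) (ms _ (bα hΘ).cj f), coeFn_ms (bα hΘ).cj f, abs_ae hΘ hS] with t h1 h2 h3 h4 h5
  rw [h1, h2, h3, h4]
  linear_combination (f t) * h5

include hS in
lemma fam_G (g : L2 E2) (hg : g ∈ H2 E2) (hg' : MM' _ hΘ g ∈ H2 E2) : Fam hΘ (MM _ hΘ g) := by
  intro k
  rw [← MM_mulC]
  exact (ker_G hΘ hS _ (mulC_fourier_mem hg k) (by rw [MM_mulC]; exact mulC_fourier_mem hg' k)).2

lemma c0 (u v : L2 ℂ) (m : ℤ) : fourierCoeff (mk2 u v) m 0 = fourierCoeff u m := by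
  rw [coeff_mk2]; rfl

lemma c1 (u v : L2 ℂ) (m : ℤ) : fourierCoeff (mk2 u v) m 1 = fourierCoeff v m := by
  rw [coeff_mk2]; rfl

include hS hn hcΦ hcΨ in
/-- the key statement: vanishing of the coefficients beyond `n` -/
theorem key_vanish : ∀ k : ℕ, n < k → fourierCoeff α k = 0 ∧ fourierCoeff β k = 0 ∧
      fourierCoeff α (-(k : ℤ)) = 0 ∧ fourierCoeff β (-(k : ℤ)) = 0 := by
  -- existence of g1, g2
  obtain ⟨g1, hg1, ha1, ha0⟩ := exists_g (bα hΘ).cj (bΦ hΘ) hn hcΦ (by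
    intro f hf
    have h := hypQ hΘ hS f 0 hf (H2 ℂ).zero_mem
    rw [map_zero, map_zero, map_zero, map_zero, add_zero, add_zero, add_zero, add_zero,
      Qc_of_mem (co_cj (bΦ hΘ) hcΦ f hf), norm_zero] at h
    refine (pow_le_pow_iff_left₀ (norm_nonneg _) (norm_nonneg _) two_ne_zero).1 ?_
    have : 0 ≤ ‖Qc (ms β (bβ hΘ) f)‖ ^ 2 := by positivity
    linarith)
  obtain ⟨g2, hg2, hb1, hb0⟩ := exists_g (bβ hΘ).cj (bΨ hΘ) hn hcΨ (by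
    intro f hf
    have h := hypQ hΘ hS 0 f (H2 ℂ).zero_mem hf
    rw [map_zero, map_zero, map_zero, map_zero, zero_add, zero_add, zero_add, zero_add,
      Qc_of_mem (co_cj (bΨ hΘ) hcΨ f hf), norm_zero] at h
    refine (pow_le_pow_iff_left₀ (norm_nonneg _) (norm_nonneg _) two_ne_zero).1 ?_
    have : 0 ≤ ‖Qc (ms α (bα hΘ) f)‖ ^ 2 := by positivity
    linarith)
  obtain ⟨a1, ha1e⟩ : ∃ x, x = ms _ (bα hΘ).cj g1 := ⟨_, rfl⟩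
  obtain ⟨b1, hb1e⟩ : ∃ x, x = ms _ (bβ hΘ).cj g2 := ⟨_, rfl⟩
  rw [← ha1e] at ha1 ha0
  rw [← hb1e] at hb1 hb0
  obtain ⟨l1, hl1e⟩ : ∃ x, x = ms Φ (bΦ hΘ) g1 := ⟨_, rfl⟩
  obtain ⟨k1, hk1e⟩ : ∃ x, x = ms β (bβ hΘ) g1 := ⟨_, rfl⟩
  obtain ⟨k2, hk2e⟩ : ∃ x, x = ms α (bα hΘ) g2 := ⟨_, rfl⟩
  obtain ⟨l2, hl2e⟩ : ∃ x, x = ms Ψ (bΨ hΘ) g2 := ⟨_, rfl⟩
  have hMG1 : MM _ hΘ (mk2 g1 0) = mk2 l1 k1 := by
    rw [MM_mk2, map_zero, map_zero, add_zero, add_zero, hl1e, hk1e]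
  have hMG2 : MM _ hΘ (mk2 0 g2) = mk2 k2 l2 := by
    rw [MM_mk2, map_zero, map_zero, zero_add, zero_add, hk2e, hl2e]
  have hM'G1 : MM' _ hΘ (mk2 g1 0) = mk2 (ms _ (bΦ hΘ).cj g1) a1 := by
    rw [MM'_mk2, map_zero, map_zero, add_zero, add_zero, ha1e]
  have hM'G2 : MM' _ hΘ (mk2 0 g2) = mk2 b1 (ms _ (bΨ hΘ).cj g2) := by
    rw [MM'_mk2, map_zero, map_zero, zero_add, zero_add, hb1e]
  have hG1 : mk2 g1 0 ∈ H2 E2 := mem_mk2.2 ⟨hg1, (H2 ℂ).zero_mem⟩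
  have hG2 : mk2 0 g2 ∈ H2 E2 := mem_mk2.2 ⟨(H2 ℂ).zero_mem, hg2⟩
  have hG1' : MM' _ hΘ (mk2 g1 0) ∈ H2 E2 := by
    rw [hM'G1]
    exact mem_mk2.2 ⟨co_cj (bΦ hΘ) hcΦ g1 hg1, ha1⟩
  have hG2' : MM' _ hΘ (mk2 0 g2) ∈ H2 E2 := by
    rw [hM'G2]
    exact mem_mk2.2 ⟨hb1, co_cj (bΨ hΘ) hcΨ g2 hg2⟩
  have famh : Fam hΘ (mk2 l1 k1) := by
    rw [← hMG1]
    exact fam_G hΘ hS _ hG1 hG1'
  have famh' : Fam hΘ (mk2 k2 l2) := by
    rw [← hMG2]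
    exact fam_G hΘ hS _ hG2 hG2'
  obtain ⟨hl1, hk1⟩ := mem_mk2.1 (Fam.mem hΘ famh)
  obtain ⟨hk2, hl2⟩ := mem_mk2.1 (Fam.mem hΘ famh')
  -- coefficients of `M' h`
  have F1 : ∀ m : ℤ, m < 0 → fourierCoeff (MM' _ hΘ (mk2 l1 k1)) m 0 = fourierCoeff (ms α (bα hΘ) a1) m := by
    intro m hm
    rw [MM'_mk2, c0, fourierCoeff_add', co_cj (bΦ hΘ) hcΦ l1 hl1 m hm, zero_add, hk1e, bb hΘ hS, ← ha1e]
  have F2 : ∀ m : ℤ, m < 0 → fourierCoeff (MM' _ hΘ (mk2 l1 k1)) m 1 = fourierCoeff (ms Φ (bΦ hΘ) a1) m := by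
    intro m hm
    rw [MM'_mk2, c1, fourierCoeff_add', co_cj (bΨ hΘ) hcΨ k1 hk1 m hm, add_zero, hl1e, ms_comm, ← ha1e]
  have F2' : ∀ m : ℤ, m < 0 → fourierCoeff (MM' _ hΘ (mk2 l1 k1)) m 1 = fourierCoeff (ms Ψ (bΨ hΘ) a1) m := by
    intro m hm
    rw [← hMG1, MM_comm hΘ hS, hM'G1, MM_mk2, c1, fourierCoeff_add', ms_comm, ← hk1e,
      co_cj (bΦ hΘ) hcΦ k1 hk1 m hm, zero_add]
  have F3 : ∀ m : ℤ, m < 0 → fourierCoeff (MM' _ hΘ (mk2 k2 l2)) m 0 = fourierCoeff (ms Φ (bΦ hΘ) b1) m := by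
    intro m hm
    rw [← hMG2, MM_comm hΘ hS, hM'G2, MM_mk2, c0, fourierCoeff_add', ms_comm (bα hΘ), ← hk2e,
      co_cj (bΨ hΘ) hcΨ k2 hk2 m hm, add_zero]
  have F4 : ∀ m : ℤ, m < 0 → fourierCoeff (MM' _ hΘ (mk2 k2 l2)) m 1 = fourierCoeff (ms β (bβ hΘ) b1) m := by
    intro m hm
    rw [MM'_mk2, c1, fourierCoeff_add', co_cj (bΨ hΘ) hcΨ l2 hl2 m hm, add_zero, hk2e, ms_comm, ← bb hΘ hS,
      ms_comm, ← hb1e]
  have F5 : ∀ m : ℤ, fourierCoeff (MM _ hΘ (mk2 l1 k1)) m 0 =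
      fourierCoeff (ms Φ (bΦ hΘ) l1) m + fourierCoeff (ms α (bα hΘ) k1) m := by
    intro m
    rw [MM_mk2, c0, fourierCoeff_add']
  have F6 : ∀ m : ℤ, fourierCoeff (MM _ hΘ (mk2 l1 k1)) m 1 =
      fourierCoeff (ms Φ (bΦ hΘ) k1) m + fourierCoeff (ms Ψ (bΨ hΘ) k1) m := by
    intro m
    rw [MM_mk2, c1, fourierCoeff_add', hl1e, ms_comm (bβ hΘ), ← hk1e]
  obtain ⟨φ, hφ⟩ : ∃ x, x = fourierCoeff Φ (-(n : ℤ)) := ⟨_, rfl⟩
  have hφ0 : φ ≠ 0 := hφ ▸ hcΦ.2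
  have e1 : -1 - ((n - 1 : ℕ) : ℤ) = -(n : ℤ) := by omega
  -- last coefficients agree
  have hψ : fourierCoeff Ψ (-(n : ℤ)) = φ := by
    have h1 := F2 (-(n : ℤ)) (by omega)
    rw [F2' (-(n : ℤ)) (by omega), co_coeff' _ hcΦ a1 ha1, co_coeff' _ hcΨ a1 ha1] at h1
    rw [hφ]
    exact mul_right_cancel₀ ha0 h1
  -- Case A or B
  by_cases hA1 : ∀ i : ℕ, fourierCoeff (MM' _ hΘ (mk2 l1 k1)) (-1 - i) 0 *
      fourierCoeff (MM' _ hΘ (mk2 l1 k1)) (-1 - ((n - 1 : ℕ) : ℤ)) 1 -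
      fourierCoeff (MM' _ hΘ (mk2 l1 k1)) (-1 - i) 1 *
      fourierCoeff (MM' _ hΘ (mk2 l1 k1)) (-1 - ((n - 1 : ℕ) : ℤ)) 0 = 0
  swap
  · push Not at hA1
    obtain ⟨i, hi⟩ := hA1
    exact caseA hΘ hS hn hcΦ hcΨ _ _ famh famh i (n - 1) hi
  by_cases hA2 : ∀ i : ℕ, fourierCoeff (MM' _ hΘ (mk2 k2 l2)) (-1 - i) 0 *
      fourierCoeff (MM' _ hΘ (mk2 l1 k1)) (-1 - ((n - 1 : ℕ) : ℤ)) 1 -
      fourierCoeff (MM' _ hΘ (mk2 k2 l2)) (-1 - i) 1 *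
      fourierCoeff (MM' _ hΘ (mk2 l1 k1)) (-1 - ((n - 1 : ℕ) : ℤ)) 0 = 0
  swap
  · push Not at hA2
    obtain ⟨i, hi⟩ := hA2
    exact caseA hΘ hS hn hcΦ hcΨ _ _ famh' famh i (n - 1) hi
  -- Case B
  obtain ⟨p, hp⟩ : ∃ x, x = fourierCoeff a1 0 := ⟨_, rfl⟩
  rw [← hp] at ha0
  rw [e1, F1 _ (by omega), F2 _ (by omega), co_coeff' _ hcΦ a1 ha1, ← hφ, ← hp] at hA1 hA2
  obtain ⟨μ, hμ⟩ : ∃ x, x = fourierCoeff (ms α (bα hΘ) a1) (-(n : ℤ)) / (φ * p) := ⟨_, rfl⟩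
  have hμ' : fourierCoeff (ms α (bα hΘ) a1) (-(n : ℤ)) = μ * (φ * p) := by
    rw [hμ, div_mul_cancel₀ _ (mul_ne_zero hφ0 ha0)]
  rw [hμ'] at hA1 hA2
  have hneg : ∀ m : ℤ, m < 0 → ∃ i : ℕ, -1 - (i : ℤ) = m := fun m hm => ⟨(-1 - m).toNat, by omega⟩
  have B1 : ∀ m : ℤ, m < 0 → fourierCoeff (ms α (bα hΘ) a1) m = μ * fourierCoeff (ms Φ (bΦ hΘ) a1) m := by
    intro m hm
    obtain ⟨i, hi⟩ := hneg m hm
    have h := hA1 i
    rw [hi, F1 m hm, F2 m hm] at h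
    have h2 : (φ * p) * (fourierCoeff (ms α (bα hΘ) a1) m - μ * fourierCoeff (ms Φ (bΦ hΘ) a1) m) = 0 := by
      linear_combination h
    rcases mul_eq_zero.1 h2 with h3 | h3
    · exact absurd h3 (mul_ne_zero hφ0 ha0)
    · exact sub_eq_zero.1 h3
  have B2 : ∀ m : ℤ, m < 0 → fourierCoeff (ms Φ (bΦ hΘ) b1) m = μ * fourierCoeff (ms β (bβ hΘ) b1) m := by
    intro m hm
    obtain ⟨i, hi⟩ := hneg m hm
    have h := hA2 i
    rw [hi, F3 m hm, F4 m hm] at h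
    have h2 : (φ * p) * (fourierCoeff (ms Φ (bΦ hΘ) b1) m - μ * fourierCoeff (ms β (bβ hΘ) b1) m) = 0 := by
      linear_combination h
    rcases mul_eq_zero.1 h2 with h3 | h3
    · exact absurd h3 (mul_ne_zero hφ0 ha0)
    · exact sub_eq_zero.1 h3
  have hμ0 : μ ≠ 0 := by
    rintro h0
    have h := B2 (-(n : ℤ)) (by omega)
    rw [h0, zero_mul, co_coeff' _ hcΦ b1 hb1, ← hφ] at h
    exact mul_ne_zero hφ0 hb0 h
  have B3 : fourierCoeff g1 0 = 0 := by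
    have h := co_coeff' (bΦ hΘ) hcΦ g1 hg1
    rw [← hl1e, hl1 _ (by omega), ← hφ] at h
    rcases mul_eq_zero.1 h.symm with h | h
    · exact absurd h hφ0
    · exact h
  have B4 : fourierCoeff l1 0 = μ * fourierCoeff k1 0 := by
    have h1 : (ms Φ (bΦ hΘ) b1 - μ • ms β (bβ hΘ) b1 : L2 ℂ) ∈ H2 ℂ := by
      intro m hm
      rw [fourierCoeff_sub', fourierCoeff_smul', B2 m hm, smul_eq_mul, sub_self]
    have h2 : (l1 - μ • k1 : L2 ℂ) ∈ H2 ℂ := (H2 ℂ).sub_mem hl1 ((H2 ℂ).smul_mem _ hk1)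
    have h3 : ⟪(star (l1 - μ • k1 : L2 ℂ) : L2 ℂ), b1⟫_ℂ =
        ⟪(star g1 : L2 ℂ), (ms Φ (bΦ hΘ) b1 - μ • ms β (bβ hΘ) b1 : L2 ℂ)⟫_ℂ := by
      rw [inner_star_symm, inner_sub_right, inner_smul_right, inner_sub_right, inner_smul_right,
        inner_star_symm b1, inner_star_symm b1, hl1e, hk1e, inner_star_ms, inner_star_ms]
    rw [inner_star_H2 _ _ h2 hb1, inner_star_H2 _ _ hg1 h1, B3, zero_mul, fourierCoeff_sub',
      fourierCoeff_smul', smul_eq_mul] at h3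
    rcases mul_eq_zero.1 h3 with h4 | h4
    · exact sub_eq_zero.1 h4
    · exact absurd h4 hb0
  have B5 : ∀ m : ℤ, m < -(n : ℤ) → fourierCoeff (ms α (bα hΘ) k1) m = 0 := by
    intro m hm
    obtain ⟨i, hi⟩ := hneg m (by omega)
    have h := gramF hΘ hS _ _ famh famh i i
    rw [hi, F1 m (by omega), F2 m (by omega), B1 m (by omega), co_coeff _ hcΦ a1 ha1 m hm, F5,
      co_coeff _ hcΦ l1 hl1 m hm, F6, co_coeff _ hcΦ k1 hk1 m hm, co_coeff _ hcΨ k1 hk1 m hm] at h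
    simp only [mul_zero, map_zero, add_zero, zero_add] at h
    rcases mul_eq_zero.1 h with h4 | h4
    · exact (map_eq_zero _).1 h4
    · exact h4
  have B6 : fourierCoeff (ms α (bα hΘ) k1) (-(n : ℤ)) = μ * φ * fourierCoeff k1 0 := by
    have h1 : mulC (fourier (n : ℤ)) (ms α (bα hΘ) k1) ∈ H2 ℂ := by
      intro m hm
      rw [fourierCoeff_mulC_fourier]
      exact B5 _ (by omega)
    have h2 : mulC (fourier (n : ℤ)) (ms α (bα hΘ) a1) ∈ H2 ℂ := by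
      intro m hm
      rw [fourierCoeff_mulC_fourier, B1 _ (by omega), co_coeff _ hcΦ a1 ha1 _ (by omega), mul_zero]
    have h3 : ⟪(star (mulC (fourier (n : ℤ)) (ms α (bα hΘ) k1)) : L2 ℂ), a1⟫_ℂ =
        ⟪(star (mulC (fourier (n : ℤ)) (ms α (bα hΘ) a1)) : L2 ℂ), k1⟫_ℂ := by
      rw [inner_star_mulC, inner_star_ms, inner_star_symm, ms_mulC]
    rw [inner_star_H2 _ _ h1 ha1, inner_star_H2 _ _ h2 hk1, fourierCoeff_mulC_fourier,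
      fourierCoeff_mulC_fourier, zero_sub, hμ', ← hp] at h3
    have h4 : p * (fourierCoeff (ms α (bα hΘ) k1) (-(n : ℤ)) - μ * φ * fourierCoeff k1 0) = 0 := by
      linear_combination h3
    rcases mul_eq_zero.1 h4 with h5 | h5
    · exact absurd h5 ha0
    · exact sub_eq_zero.1 h5
  obtain ⟨X, hX⟩ : ∃ x, x = 2 * φ * fourierCoeff k1 0 := ⟨_, rfl⟩
  have X0 : fourierCoeff (MM _ hΘ (mk2 l1 k1)) (-1 - ((n - 1 : ℕ) : ℤ)) 0 = μ * X := by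
    rw [e1, F5, co_coeff' _ hcΦ l1 hl1, B6, B4, ← hφ, hX]
    ring
  have X1 : fourierCoeff (MM _ hΘ (mk2 l1 k1)) (-1 - ((n - 1 : ℕ) : ℤ)) 1 = X := by
    rw [e1, F6, co_coeff' _ hcΦ k1 hk1, co_coeff' _ hcΨ k1 hk1, ← hφ, hψ, hX]
    ring
  obtain ⟨Y, hY⟩ : ∃ x, x = φ * p := ⟨_, rfl⟩
  have Y0 : fourierCoeff (MM' _ hΘ (mk2 l1 k1)) (-1 - ((n - 1 : ℕ) : ℤ)) 0 = μ * Y := by
    rw [e1, F1 _ (by omega), hμ', hY]
  have Y1 : fourierCoeff (MM' _ hΘ (mk2 l1 k1)) (-1 - ((n - 1 : ℕ) : ℤ)) 1 = Y := by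
    rw [e1, F2 _ (by omega), co_coeff' _ hcΦ a1 ha1, ← hφ, ← hp, hY]
  have hYn : Y ≠ 0 := hY ▸ mul_ne_zero hφ0 ha0
  have hXY : ‖X‖ = ‖Y‖ := by
    have h := gramF hΘ hS _ _ famh famh (n - 1) (n - 1)
    rw [X0, X1, Y0, Y1] at h
    have h1 : (1 + conj μ * μ) * (conj X * X) = (1 + conj μ * μ) * (conj Y * Y) := by
      rw [map_mul, map_mul] at h
      linear_combination h
    have h2 : (1 + conj μ * μ) ≠ 0 := by
      rw [Complex.conj_mul']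
      have : (0 : ℝ) < 1 + ‖μ‖ ^ 2 := by positivity
      exact_mod_cast this.ne'
    have h3 := mul_left_cancel₀ h2 h1
    rw [Complex.conj_mul', Complex.conj_mul'] at h3
    have h4 : ‖X‖ ^ 2 = ‖Y‖ ^ 2 := by exact_mod_cast h3
    exact (pow_left_inj₀ (norm_nonneg _) (norm_nonneg _) two_ne_zero).1 h4
  have hYp : 0 < ‖Y‖ := norm_pos_iff.2 hYn
  -- moduli of the coefficients
  have T0 : ∀ j : ℕ, n ≤ j → ‖fourierCoeff β (-1 - j)‖ = ‖fourierCoeff α (1 + j)‖ := by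
    intro j hj
    have h := test0 hΘ hS hcΦ _ famh (n - 1) j
    rw [X0, X1, Y0, Y1, hcΦ.1 (-1 - j) (Or.inl (by omega)), mul_zero, mul_zero, zero_add, zero_add] at h
    have h1 := congrArg norm h
    rw [norm_mul, norm_mul, RCLike.norm_conj, RCLike.norm_conj, RCLike.norm_conj, hXY] at h1
    exact mul_left_cancel₀ hYp.ne' h1
  have T1 : ∀ j : ℕ, n ≤ j → ‖fourierCoeff α (-1 - j)‖ = ‖fourierCoeff β (1 + j)‖ := by
    intro j hj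
    have h := test1 hΘ hS hcΨ _ famh (n - 1) j
    rw [X0, X1, Y0, Y1, hcΨ.1 (-1 - j) (Or.inl (by omega)), mul_zero, mul_zero, add_zero, add_zero] at h
    have h1 := congrArg norm h
    rw [norm_mul, norm_mul, RCLike.norm_conj, RCLike.norm_conj, RCLike.norm_conj, norm_mul, norm_mul, hXY] at h1
    exact mul_left_cancel₀ (mul_ne_zero (norm_ne_zero_iff.2 hμ0) hYp.ne') h1
  have hshift : ∀ k : ℕ, mulC (fourier (k : ℤ)) (mulC (fourier (n : ℤ)) on) =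
      mulC (fourier ((k + n : ℕ) : ℤ)) on := by
    intro k
    rw [mulC_mulC, fourier_mul]
    push_cast
    rfl
  have hz : ∀ m : C(Circ, ℂ), mulC m (0 : L2 ℂ) = 0 := fun m => map_zero _
  have hmem : ∀ N : ℕ, mulC (fourier (N : ℤ)) on ∈ H2 ℂ := fun N => mulC_fourier_mem on_mem N
  have hcoz : ∀ (E : Circ → ℂ) (hE : Bdd E) (hcE : IsCoanalyticPoly n E) (k : ℕ),
      Qc (ms E hE (mulC (fourier ((k + n : ℕ) : ℤ)) on)) = 0 := by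
    intro E hE hcE k
    apply Qc_of_mem
    intro m hm
    rw [ms_mulC, fourierCoeff_mulC_fourier]
    exact co_coeff hE hcE on on_mem _ (by omega)
  have fam0 : Fam hΘ (mulC (fourier (n : ℤ)) (mk2 on 0)) := by
    intro k
    rw [mulC_mk2, mulC_mk2, hshift, hz, hz]
    apply KD_mk2 hΘ hS _ _ (hmem _) (H2 ℂ).zero_mem
    rw [map_zero, map_zero, map_zero, map_zero, add_zero, add_zero, add_zero, add_zero, hcoz _ _ hcΦ,
      Qc_of_mem (co_cj (bΦ hΘ) hcΦ _ (hmem _)), norm_Qc_eq (ms β (bβ hΘ) _)]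
    intro m hm
    rw [ms_mulC, ms_mulC, fourierCoeff_mulC_fourier, fourierCoeff_mulC_fourier, coeff_on, coeff_on,
      fourierCoeff_conj, RCLike.norm_conj]
    obtain ⟨j, hj⟩ := hneg (m - ((k + n : ℕ) : ℤ)) (by omega)
    rw [← hj, T0 j (by omega)]
    congr 2
    ring
  have fam1 : Fam hΘ (mulC (fourier (n : ℤ)) (mk2 0 on)) := by
    intro k
    rw [mulC_mk2, mulC_mk2, hshift, hz, hz]
    apply KD_mk2 hΘ hS _ _ (H2 ℂ).zero_mem (hmem _)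
    rw [map_zero, map_zero, map_zero, map_zero, zero_add, zero_add, zero_add, zero_add, hcoz _ _ hcΨ,
      Qc_of_mem (co_cj (bΨ hΘ) hcΨ _ (hmem _)), norm_Qc_eq (ms α (bα hΘ) _)]
    intro m hm
    rw [ms_mulC, ms_mulC, fourierCoeff_mulC_fourier, fourierCoeff_mulC_fourier, coeff_on, coeff_on,
      fourierCoeff_conj, RCLike.norm_conj]
    obtain ⟨j, hj⟩ := hneg (m - ((k + n : ℕ) : ℤ)) (by omega)
    rw [← hj, T1 j (by omega)]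
    congr 2
    ring
  have V0 : ∀ i : ℕ, fourierCoeff β (-1 - i - n) = 0 := by
    intro i
    have h := test1 hΘ hS hcΨ _ fam0 i (n - 1)
    rw [MM_mulC, MM_mulC, fourierCoeff_mulC_fourier, fourierCoeff_mulC_fourier, MM_e0 hΘ, MM'_e0 hΘ, c0, c1, c0,
      coeff_on, coeff_on, coeff_on, fourierCoeff_conj, hcΦ.1 (-1 - i - n) (Or.inl (by omega)),
      hcΦ.1 (-(-1 - i - n)) (Or.inr (by omega)), e1, hψ] at h
    simp only [map_zero, mul_zero, zero_mul, zero_add, add_zero] at h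
    rcases mul_eq_zero.1 h with h4 | h4
    · exact (map_eq_zero _).1 h4
    · exact absurd h4 hφ0
  have V1 : ∀ i : ℕ, fourierCoeff α (-1 - i - n) = 0 := by
    intro i
    have h := test0 hΘ hS hcΦ _ fam1 i (n - 1)
    rw [MM_mulC, MM_mulC, fourierCoeff_mulC_fourier, fourierCoeff_mulC_fourier, MM_e1 hΘ, MM'_e1 hΘ, c0, c1, c1,
      coeff_on, coeff_on, coeff_on, fourierCoeff_conj, hcΨ.1 (-1 - i - n) (Or.inl (by omega)),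
      hcΨ.1 (-(-1 - i - n)) (Or.inr (by omega)), e1, ← hφ] at h
    simp only [map_zero, mul_zero, zero_mul, zero_add, add_zero] at h
    rcases mul_eq_zero.1 h with h4 | h4
    · exact (map_eq_zero _).1 h4
    · exact absurd h4 hφ0
  intro k hk
  have h1 := T0 (k - 1) (by omega)
  have h2 := T1 (k - 1) (by omega)
  have h3 := V0 (k - 1 - n)
  have h4 := V1 (k - 1 - n)
  have e2 : -1 - ((k - 1 - n : ℕ) : ℤ) - n = -(k : ℤ) := by omega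
  have e3 : -1 - ((k - 1 : ℕ) : ℤ) = -(k : ℤ) := by omega
  have e4 : 1 + ((k - 1 : ℕ) : ℤ) = (k : ℤ) := by omega
  rw [e2] at h3 h4
  rw [e3, e4] at h1 h2
  rw [h3, norm_zero] at h1
  rw [h4, norm_zero] at h2
  exact ⟨norm_eq_zero.1 h1.symm, norm_eq_zero.1 h2.symm, h4, h3⟩

end main

end Pool.Agent.H31.TC
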